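import Mathlib

set_option autoImplicit false

open Finset Filter

namespace Pool.Agent.HLG

/-- the blocks -/
noncomputable def Nb (lam x : ℝ) (j : ℕ) : ℕ := ⌊x / lam ^ (j + 1)⌋₊

lemma geom_blocks (lam : ℝ) (hl : 0 < lam) (J : ℕ) :
    (∑ j ∈ Finset.range J, 1 / lam ^ (j + 1)) * (lam - 1) = 1 - 1 / lam ^ J := by
  induction J with
  | zero => simp
  | succ J ih =>
    rw [Finset.sum_range_succ, add_mul, ih]
    have h1 : lam ^ J ≠ 0 := by positivity
    rw [pow_succ]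
    field_simp
    ring

theorem blocks (ζ : ℝ) (hζ : 0 < ζ) (hζ1 : ζ ≤ 1) : ∃ (J : ℕ) (lam : ℝ), 2 < lam ∧ 0 < J ∧
    ∀ P : ℕ → Prop, (∀ᶠ N in atTop, P N) → ∀ (A : ℕ) (W H0 : ℝ), 0 ≤ W → ∃ X : ℝ, ∀ x : ℝ,
      X ≤ x → 0 < x ∧ H0 ≤ Real.log x ∧ 1 ≤ Real.log x ∧
      (∀ j : ℕ, j < J → P (Nb lam x j) ∧ 0 < Real.log (Nb lam x j : ℝ) ∧
        Real.log (Nb lam x j : ℝ) ≤ Real.log x ∧
        (Real.log x) ^ A ≤ (Real.log (Nb lam x j : ℝ)) ^ (A + 1) ∧
        2 * (Nb lam x j : ℝ) + (Real.log x) ^ A ≤ x) ∧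
      (∀ j j' : ℕ, j < j' → j' < J →
        2 * (Nb lam x j' : ℝ) + (Real.log x) ^ A ≤ (Nb lam x j : ℝ)) ∧
      (1 - ζ) * x ≤ ∑ j ∈ Finset.range J, ((Nb lam x j : ℝ) - W) := by
  set lam : ℝ := 2 + ζ / 4 with hlam
  have hl2 : 2 < lam := by rw [hlam]; linarith
  have hl0 : 0 < lam := by linarith
  have hl1 : 1 ≤ lam := by linarith
  obtain ⟨J0, hJ0⟩ := exists_pow_lt_of_lt_one (show (0:ℝ) < ζ / 4 by positivity)
    (show (1:ℝ) / 2 < 1 by norm_num)
  set J := J0 + 1 with hJ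
  have hJ1 : 1 / lam ^ J ≤ ζ / 4 := by
    have h1 : (1:ℝ) / lam ^ J ≤ 1 / 2 ^ J0 := by
      apply one_div_le_one_div_of_le (by positivity)
      calc (2:ℝ) ^ J0 ≤ lam ^ J0 := pow_le_pow_left₀ (by norm_num) hl2.le _
        _ ≤ lam ^ J := pow_le_pow_right₀ hl1 (Nat.le_succ _)
    rw [one_div_pow] at hJ0
    linarith
  refine ⟨J, lam, hl2, Nat.succ_pos _, ?_⟩
  intro P hP A W H0 hW
  have hL : 0 < lam ^ J := by positivity
  have hlog := Real.tendsto_log_atTop
  -- eventual statements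
  have e1 : ∀ᶠ x : ℝ in atTop, ∀ j ∈ Finset.range J, P (Nb lam x j) := by
    rw [Filter.eventually_all_finset]
    intro j _
    have hfl : Tendsto (fun x : ℝ => Nb lam x j) atTop atTop :=
      tendsto_nat_floor_atTop.comp (tendsto_id.atTop_div_const (by positivity))
    exact hfl.eventually hP
  have e2 : ∀ᶠ x : ℝ in atTop, 2 * Real.log (2 * lam ^ J) + 2 ^ (A + 1) + 2 ≤ Real.log x :=
    hlog.eventually_ge_atTop _
  have e3 : ∀ᶠ x : ℝ in atTop, H0 ≤ Real.log x := hlog.eventually_ge_atTop _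
  have e4 : ∀ᶠ x : ℝ in atTop, 2 * lam ^ J + 2 * J * (1 + W) / ζ + 1 ≤ x :=
    eventually_ge_atTop _
  have hc : (0:ℝ) < (1 - 2 / lam) / (2 * lam ^ J) := by
    have : 2 / lam < 1 := by rw [div_lt_one hl0]; exact hl2
    have h2 : 0 < 1 - 2 / lam := by linarith
    positivity
  have e5 : ∀ᶠ x : ℝ in atTop, ‖(Real.log x) ^ A‖ ≤ ((1 - 2 / lam) / (2 * lam ^ J)) * ‖x‖ := by
    have h := (Real.isLittleO_pow_log_id_atTop (n := A)).def hc
    simpa using h
  have e6 : ∀ᶠ x : ℝ in atTop, 1 / ((1 - 2 / lam) / (2 * lam ^ J)) ≤ x :=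
    eventually_ge_atTop _
  obtain ⟨X, hX⟩ := eventually_atTop.mp (e1.and (e2.and (e3.and (e4.and (e5.and e6)))))
  refine ⟨X, fun x hx => ?_⟩
  obtain ⟨h1, h2, h3, h4, h5, h6⟩ := hX x hx
  have hJW : 0 ≤ 2 * (J:ℝ) * (1 + W) / ζ := by positivity
  have hxL : 2 * lam ^ J ≤ x := by linarith
  have hx0 : 0 < x := by linarith [hL]
  have hx1 : 1 ≤ x := by linarith [hL]
  have hlogL : 0 ≤ Real.log (2 * lam ^ J) := by
    apply Real.log_nonneg
    have : (1:ℝ) ≤ lam ^ J := one_le_pow₀ hl1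
    linarith
  have hp2 : (0:ℝ) < 2 ^ (A + 1) := by positivity
  have hlog1 : 1 ≤ Real.log x := by linarith
  set c := (1 - 2 / lam) / (2 * lam ^ J) with hcdef
  have hlogA : (Real.log x) ^ A ≤ c * x := by
    rw [Real.norm_eq_abs, Real.norm_eq_abs, abs_of_nonneg (by positivity), abs_of_pos hx0] at h5
    exact h5
  have hcx : 1 ≤ c * x := by
    rw [div_le_iff₀ hc, mul_comm] at h6
    exact h6
  -- sizes
  have hup : ∀ j, (Nb lam x j : ℝ) ≤ x / lam ^ (j + 1) := fun j =>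
    Nat.floor_le (by positivity)
  have hlow : ∀ j, x / lam ^ (j + 1) - 1 ≤ (Nb lam x j : ℝ) := fun j =>
    (Nat.sub_one_lt_floor _).le
  have hpowle : ∀ j, j < J → x / lam ^ J ≤ x / lam ^ (j + 1) := by
    intro j hj
    apply div_le_div_of_nonneg_left hx0.le (by positivity)
    exact pow_le_pow_right₀ hl1 hj
  have h2x : 2 ≤ x / lam ^ J := by rw [le_div_iff₀ hL]; exact hxL
  have hhalf : ∀ j, j < J → x / (2 * lam ^ J) ≤ (Nb lam x j : ℝ) := by
    intro j hj
    have h7 := hlow j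
    have h8 := hpowle j hj
    have h9 : x / (2 * lam ^ J) = (x / lam ^ J) / 2 := by field_simp
    rw [h9]
    linarith
  have hlogN : ∀ j, j < J → Real.log x / 2 ≤ Real.log (Nb lam x j : ℝ) := by
    intro j hj
    have h7 : Real.log (x / (2 * lam ^ J)) ≤ Real.log (Nb lam x j : ℝ) :=
      Real.log_le_log (by positivity) (hhalf j hj)
    rw [Real.log_div hx0.ne' (by positivity)] at h7
    linarith
  have hcc : c * x * 2 = (1 - 2 / lam) * (x / lam ^ J) := by
    rw [hcdef]; field_simp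
  have h12 : 0 < 1 - 2 / lam := by
    have : 2 / lam < 1 := by rw [div_lt_one hl0]; exact hl2
    linarith
  refine ⟨hx0, h3, hlog1, ?_, ?_, ?_⟩
  · intro j hj
    have h7 := hlogN j hj
    have h8 : (2:ℝ) ^ A ≤ Real.log (Nb lam x j : ℝ) := by
      have : (2:ℝ) ^ (A + 1) = 2 * 2 ^ A := by ring
      rw [this] at h2
      linarith
    have h9 : 0 < Real.log (Nb lam x j : ℝ) := by linarith
    have hNx : (Nb lam x j : ℝ) ≤ x / lam := by
      refine (hup j).trans ?_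
      apply div_le_div_of_nonneg_left hx0.le hl0
      calc lam = lam ^ 1 := (pow_one _).symm
        _ ≤ lam ^ (j + 1) := pow_le_pow_right₀ hl1 (by omega)
    have hNpos : (0:ℝ) < (Nb lam x j : ℝ) := lt_of_lt_of_le (by positivity) (hhalf j hj)
    refine ⟨h1 j (Finset.mem_range.mpr hj), h9, ?_, ?_, ?_⟩
    · apply Real.log_le_log hNpos
      refine hNx.trans (div_le_self hx0.le hl1)
    · calc (Real.log x) ^ A ≤ (2 * Real.log (Nb lam x j : ℝ)) ^ A :=
            pow_le_pow_left₀ (by linarith) (by linarith) A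
        _ = 2 ^ A * (Real.log (Nb lam x j : ℝ)) ^ A := by rw [mul_pow]
        _ ≤ Real.log (Nb lam x j : ℝ) * (Real.log (Nb lam x j : ℝ)) ^ A :=
          mul_le_mul_of_nonneg_right h8 (by positivity)
        _ = _ := by ring
    · have h10 : c * x ≤ (1 - 2 / lam) * x := by
        have h11 : x / lam ^ J ≤ x := div_le_self hx0.le (one_le_pow₀ hl1)
        have h13 : (1 - 2 / lam) * (x / lam ^ J) ≤ (1 - 2 / lam) * x :=
          mul_le_mul_of_nonneg_left h11 h12.le
        have h14 : 0 ≤ c * x := by linarith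
        linarith
      have h15 : 2 * (x / lam) = 2 / lam * x := by ring
      nlinarith
  · intro j j' hjj hj'
    have hj : j < J := lt_trans hjj hj'
    have h7 : (Nb lam x j' : ℝ) ≤ x / lam ^ (j + 1) / lam := by
      refine (hup j').trans ?_
      rw [div_div, ← pow_succ]
      apply div_le_div_of_nonneg_left hx0.le (by positivity)
      exact pow_le_pow_right₀ hl1 (by omega)
    have h8 := hlow j
    have h9 := hpowle j hj
    have h10 : (1 - 2 / lam) * (x / lam ^ J) ≤ (1 - 2 / lam) * (x / lam ^ (j + 1)) :=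
      mul_le_mul_of_nonneg_left h9 h12.le
    have h11 : 2 * (x / lam ^ (j + 1) / lam) = 2 / lam * (x / lam ^ (j + 1)) := by ring
    have h13 : 2 * (Nb lam x j' : ℝ) ≤ 2 / lam * (x / lam ^ (j + 1)) := by
      rw [← h11]; linarith
    nlinarith
  · have h7' : ∑ j ∈ Finset.range J, (x * (1 / lam ^ (j + 1)) - (1 + W)) ≤
        ∑ j ∈ Finset.range J, ((Nb lam x j : ℝ) - W) := by
      refine Finset.sum_le_sum fun j _ => ?_
      have h8 := hlow j
      rw [mul_one_div]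
      linarith
    have h7 : ∑ j ∈ Finset.range J, (x * (1 / lam ^ (j + 1)) - (1 + W)) =
        x * (∑ j ∈ Finset.range J, 1 / lam ^ (j + 1)) - J * (1 + W) := by
      rw [Finset.sum_sub_distrib, ← Finset.mul_sum, Finset.sum_const, Finset.card_range,
        nsmul_eq_mul]
    have h8 := geom_blocks lam hl0 J
    set G := ∑ j ∈ Finset.range J, 1 / lam ^ (j + 1) with hG
    have hG0 : 0 ≤ G := Finset.sum_nonneg fun j _ => by positivity
    have h9 : 1 - ζ / 2 ≤ G := by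
      have h10 : 1 - ζ / 4 ≤ G * (1 + ζ / 4) := by
        have : lam - 1 = 1 + ζ / 4 := by rw [hlam]; ring
        rw [this] at h8
        linarith
      have h11 : (1 - ζ / 2) * (1 + ζ / 4) ≤ 1 - ζ / 4 := by nlinarith
      have h13 : (1 - ζ / 2) * (1 + ζ / 4) ≤ G * (1 + ζ / 4) := h11.trans h10
      exact le_of_mul_le_mul_right h13 (by linarith)
    have h10 : (J:ℝ) * (1 + W) ≤ ζ / 2 * x := by
      have h11 : 2 * (J:ℝ) * (1 + W) / ζ ≤ x := by linarith [hL]
      rw [div_le_iff₀ hζ] at h11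
      linarith
    have h11 : x * (1 - ζ / 2) ≤ x * G := mul_le_mul_of_nonneg_left h9 hx0.le
    linarith

end Pool.Agent.HLG
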