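import Mathlib
import Pool.Agent.HLT.AvProj

set_option autoImplicit false

open Finset

namespace Pool.Agent.HLG

open Pool.Agent.HLT

/-- the elementary symmetric sum -/
noncomputable def esym {r : ℕ} (k : ℕ) (t : Fin r → ℝ) : ℝ :=
  ∑ S ∈ (univ : Finset (Fin r)).powersetCard k, ∏ i ∈ S, t i

/-- the convex minorant: the product of `max (s - L j) 0` over `j < k` -/
noncomputable def phi (L : ℝ) (k : ℕ) (s : ℝ) : ℝ :=
  ∏ j ∈ Finset.range k, max (s - L * (j:ℝ)) 0

lemma phi_nonneg (L : ℝ) (k : ℕ) (s : ℝ) : 0 ≤ phi L k s :=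
  Finset.prod_nonneg fun _ _ => le_max_right _ _

lemma phi_mono (L : ℝ) (k : ℕ) : Monotone (phi L k) := fun s t hst =>
  Finset.prod_le_prod (fun _ _ => le_max_right _ _) fun _ _ =>
    max_le_max (by linarith) le_rfl

lemma phi_succ (L : ℝ) (k : ℕ) (s : ℝ) :
    phi L (k + 1) s = phi L k s * max (s - L * (k:ℝ)) 0 := by
  unfold phi; rw [Finset.prod_range_succ]

lemma phi_cont (L : ℝ) (k : ℕ) : Continuous (phi L k) := by
  unfold phi
  fun_prop

lemma phi_convex (L : ℝ) (k : ℕ) : ConvexOn ℝ Set.univ (phi L k) := by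
  induction k with
  | zero =>
    have : phi L 0 = fun _ => (1:ℝ) := by funext s; simp [phi]
    rw [this]; exact convexOn_const _ convex_univ
  | succ k ih =>
    have h1 : phi L (k + 1) = phi L k * (fun s => max (s - L * (k:ℝ)) 0) := by
      funext s; rw [phi_succ]; rfl
    rw [h1]
    have h2 : ConvexOn ℝ Set.univ (fun s : ℝ => max (s - L * (k:ℝ)) 0) := by
      have h3 : ConvexOn ℝ Set.univ (fun s : ℝ => s - L * (k:ℝ)) := by
        refine ⟨convex_univ, fun x _ y _ a b _ _ hab => ?_⟩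
        simp only [smul_eq_mul]
        have : L * (k:ℝ) = (a + b) * (L * k) := by rw [hab, one_mul]
        nlinarith
      exact h3.sup (convexOn_const _ convex_univ)
    refine ih.mul h2 (fun _ _ => phi_nonneg L k _) (fun _ _ => le_max_right _ _) ?_
    intro x _ y _ hxy
    by_contra hcon
    push Not at hcon
    have h3 : y ≤ x := by
      by_contra h4
      push Not at h4
      exact absurd (phi_mono L k h4.le) (not_le.mpr hcon)
    have h5 : max (y - L * (k:ℝ)) 0 ≤ max (x - L * (k:ℝ)) 0 := max_le_max (by linarith) le_rfl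
    exact absurd h5 (not_le.mpr hxy)

lemma esym_nonneg {r : ℕ} (k : ℕ) (t : Fin r → ℝ) (ht : ∀ i, 0 ≤ t i) : 0 ≤ esym k t :=
  Finset.sum_nonneg fun _ _ => Finset.prod_nonneg fun i _ => ht i

lemma esym_step {r : ℕ} (k : ℕ) (t : Fin r → ℝ) :
    ((k:ℝ) + 1) * esym (k + 1) t =
      ∑ S ∈ (univ : Finset (Fin r)).powersetCard k, (∏ i ∈ S, t i) * ∑ i ∈ univ \ S, t i := by
  classical
  have h1 : ((k:ℝ) + 1) * esym (k + 1) t =
      ∑ S ∈ (univ : Finset (Fin r)).powersetCard (k + 1), ∑ i ∈ S, ∏ j ∈ S, t j := by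
    unfold esym
    rw [Finset.mul_sum]
    refine Finset.sum_congr rfl fun S hS => ?_
    rw [Finset.sum_const, (Finset.mem_powersetCard.mp hS).2, nsmul_eq_mul]
    push_cast
    ring
  rw [h1]
  have h2 : ∀ S ∈ (univ : Finset (Fin r)).powersetCard k,
      (∏ i ∈ S, t i) * ∑ i ∈ univ \ S, t i = ∑ i ∈ univ \ S, t i * ∏ j ∈ S, t j := by
    intro S _
    rw [mul_comm, Finset.sum_mul]
  rw [Finset.sum_congr rfl h2, Finset.sum_sigma', Finset.sum_sigma']
  refine Finset.sum_bij' (fun p _ => ⟨p.1.erase p.2, p.2⟩) (fun p _ => ⟨insert p.2 p.1, p.2⟩)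
    ?_ ?_ ?_ ?_ ?_
  · rintro ⟨S, i⟩ h
    rw [Finset.mem_sigma, Finset.mem_powersetCard] at h
    rw [Finset.mem_sigma, Finset.mem_powersetCard]
    refine ⟨⟨Finset.subset_univ _, ?_⟩, ?_⟩
    · have := Finset.card_erase_of_mem h.2
      simp only at this ⊢
      rw [this, h.1.2]
      rfl
    · simp
  · rintro ⟨S, i⟩ h
    rw [Finset.mem_sigma, Finset.mem_powersetCard] at h
    rw [Finset.mem_sigma, Finset.mem_powersetCard]
    have hi : i ∉ S := (Finset.mem_sdiff.mp h.2).2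
    refine ⟨⟨Finset.subset_univ _, ?_⟩, ?_⟩
    · simp only
      rw [Finset.card_insert_of_notMem hi, h.1.2]
    · simp
  · rintro ⟨S, i⟩ h
    rw [Finset.mem_sigma] at h
    simp only
    rw [Finset.insert_erase h.2]
  · rintro ⟨S, i⟩ h
    rw [Finset.mem_sigma] at h
    have hi : i ∉ S := (Finset.mem_sdiff.mp h.2).2
    simp only
    rw [Finset.erase_insert hi]
  · rintro ⟨S, i⟩ h
    rw [Finset.mem_sigma] at h
    simp only
    rw [← Finset.mul_prod_erase S t h.2]

lemma esym_ge {r : ℕ} (L : ℝ) (k : ℕ) (t : Fin r → ℝ) (ht : ∀ i, 0 ≤ t i)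
    (htL : ∀ i, t i ≤ L) : phi L k (∑ i, t i) ≤ (k.factorial : ℝ) * esym k t := by
  induction k with
  | zero => simp [phi, esym]
  | succ k ih =>
    rw [phi_succ]
    have h1 := esym_nonneg k t ht
    have h2 : ((∑ i, t i) - L * k) * esym k t ≤ ((k:ℝ) + 1) * esym (k + 1) t := by
      rw [esym_step]
      unfold esym
      rw [Finset.mul_sum]
      refine Finset.sum_le_sum fun S hS => ?_
      rw [mul_comm]
      refine mul_le_mul_of_nonneg_left ?_ (Finset.prod_nonneg fun i _ => ht i)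
      have h3 : ∑ i ∈ univ \ S, t i = (∑ i, t i) - ∑ i ∈ S, t i := by
        rw [← Finset.sum_sdiff (Finset.subset_univ S)]
        ring
      have h4 : ∑ i ∈ S, t i ≤ L * k := by
        refine (Finset.sum_le_sum fun i _ => htL i).trans ?_
        rw [Finset.sum_const, (Finset.mem_powersetCard.mp hS).2, nsmul_eq_mul]
        linarith
      rw [h3]
      linarith
    have h5 : 0 ≤ ((k:ℝ) + 1) * esym (k + 1) t := by
      have := esym_nonneg (k + 1) t ht
      positivity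
    have h6 : max ((∑ i, t i) - L * k) 0 * esym k t ≤ ((k:ℝ) + 1) * esym (k + 1) t := by
      rcases le_total ((∑ i, t i) - L * k) 0 with h | h
      · rw [max_eq_right h, zero_mul]; exact h5
      · rw [max_eq_left h]; exact h2
    have h7 : 0 ≤ max ((∑ i, t i) - L * (k:ℝ)) 0 := le_max_right _ _
    calc phi L k (∑ i, t i) * max ((∑ i, t i) - L * (k:ℝ)) 0 ≤
          ((k.factorial : ℝ) * esym k t) * max ((∑ i, t i) - L * (k:ℝ)) 0 :=
          mul_le_mul_of_nonneg_right ih h7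
      _ = (k.factorial : ℝ) * (max ((∑ i, t i) - L * (k:ℝ)) 0 * esym k t) := by ring
      _ ≤ (k.factorial : ℝ) * (((k:ℝ) + 1) * esym (k + 1) t) :=
          mul_le_mul_of_nonneg_left h6 (by positivity)
      _ = ((k + 1).factorial : ℝ) * esym (k + 1) t := by
          rw [Nat.factorial_succ]; push_cast; ring

/-- Jensen's inequality with weights -/
lemma jensen_w {Ω : Type} [Fintype Ω] (L : ℝ) (k : ℕ) (p s : Ω → ℝ) (hp : ∀ ω, 0 ≤ p ω)
    (hp1 : ∑ ω, p ω = 1) :
    phi L k (∑ ω, p ω * s ω) ≤ ∑ ω, p ω * phi L k (s ω) := by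
  have h := (phi_convex L k).map_sum_le (t := (univ : Finset Ω)) (w := p) (p := s)
    (fun _ _ => hp _) hp1 (fun _ _ => Set.mem_univ _)
  simpa only [smul_eq_mul] using h

/-- `f` is bounded below by the correlations of functions with values in `[0,4]` and mean at
least `1 - η`, up to `δ` -/
def Rep (m r : ℕ) (η δ : ℝ) (f : Finset (Fin r) → ℝ) : Prop :=
  ∃ (Ω : Type) (_ : Fintype Ω) (p : Ω → ℝ) (g : Fin r → Ω → ℝ),
    (∀ ω, 0 ≤ p ω) ∧ ∑ ω, p ω = 1 ∧ (∀ i ω, 0 ≤ g i ω ∧ g i ω ≤ 4) ∧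
    (∀ i, 1 - η ≤ ∑ ω, p ω * g i ω) ∧
    ∀ S : Finset (Fin r), S.card = m + 1 → ∑ ω, p ω * ∏ i ∈ S, g i ω - δ ≤ f S

/-- products of numbers in `[0,C]` -/
lemma prod_close {k : ℕ} (C δ : ℝ) (hC : 1 ≤ C) (hδ : 0 ≤ δ) (a b : Fin k → ℝ)
    (ha0 : ∀ l, 0 ≤ a l) (haC : ∀ l, a l ≤ C) (hb0 : ∀ l, 0 ≤ b l)
    (hab : ∀ l, a l - δ ≤ b l) : ∏ l, a l - k * C ^ k * δ ≤ ∏ l, b l := by
  induction k with
  | zero => simp
  | succ k ih =>
    rw [Fin.prod_univ_succ, Fin.prod_univ_succ]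
    have h1 := ih (fun l => a l.succ) (fun l => b l.succ) (fun l => ha0 _) (fun l => haC _)
      (fun l => hb0 _) (fun l => hab _)
    set A := ∏ l : Fin k, a l.succ with hA
    set B := ∏ l : Fin k, b l.succ with hB
    have hA0 : 0 ≤ A := Finset.prod_nonneg fun l _ => ha0 _
    have hB0 : 0 ≤ B := Finset.prod_nonneg fun l _ => hb0 _
    have hAC : A ≤ C ^ k := by
      calc A ≤ ∏ _l : Fin k, C := Finset.prod_le_prod (fun l _ => ha0 _) fun l _ => haC _
        _ = C ^ k := by rw [Finset.prod_const, Finset.card_univ, Fintype.card_fin]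
    have hCk : 0 ≤ C ^ k := by positivity
    have hCk1 : C ^ k ≤ C ^ (k + 1) := pow_le_pow_right₀ hC (Nat.le_succ k)
    have h2 : a 0 * A - C * (k * C ^ k * δ) - C ^ k * δ ≤ b 0 * B := by
      rcases le_total (a 0) δ with h | h
      · have h3 : a 0 * A ≤ δ * C ^ k := mul_le_mul h hAC hA0 hδ
        have h4 : 0 ≤ b 0 * B := mul_nonneg (hb0 0) hB0
        have h5 : 0 ≤ C * (k * C ^ k * δ) := by positivity
        nlinarith
      · have h3 : (a 0 - δ) * B ≤ b 0 * B := mul_le_mul_of_nonneg_right (hab 0) hB0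
        have h4 : (a 0 - δ) * (A - k * C ^ k * δ) ≤ (a 0 - δ) * B :=
          mul_le_mul_of_nonneg_left h1 (by linarith)
        have h5 : 0 ≤ (k:ℝ) * C ^ k * δ := by positivity
        have h6 : (a 0 - δ) * (k * C ^ k * δ) ≤ C * (k * C ^ k * δ) :=
          mul_le_mul_of_nonneg_right (by linarith [haC 0]) h5
        have h7 : δ * A ≤ C ^ k * δ := by
          rw [mul_comm]; exact mul_le_mul_of_nonneg_right hAC hδ
        nlinarith
    refine le_trans ?_ h2
    have h8 : C ^ k * δ ≤ C ^ (k + 1) * δ := mul_le_mul_of_nonneg_right hCk1 hδ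
    have h9 : C * (k * C ^ k * δ) = k * C ^ (k + 1) * δ := by ring
    rw [h9]
    push_cast
    nlinarith

/-- `k` systems: the sum over the `(m+1)`-subsets of the products -/
theorem rep_systems (m r k : ℕ) (η δ : ℝ) (hη0 : 0 ≤ η) (hη : η ≤ 1) (hδ : 0 ≤ δ)
    (f : Fin k → Finset (Fin r) → ℝ) (hf : ∀ l S, 0 ≤ f l S) (h : ∀ l, Rep m r η δ (f l)) :
    phi (4 ^ k) (m + 1) (r * (1 - η) ^ k) / ((m + 1).factorial : ℝ) -
        (2:ℝ) ^ r * (k * (4 ^ (m + 1)) ^ k * δ) ≤
      ∑ S ∈ (univ : Finset (Fin r)).powersetCard (m + 1), ∏ l, f l S := by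
  classical
  choose Ω hΩ p g hp hp1 hg hmean hcorr using h
  have hfac : (0:ℝ) < ((m + 1).factorial : ℝ) := by exact_mod_cast Nat.factorial_pos _
  -- the product space
  let π : (∀ l, Ω l) → ℝ := fun ω => ∏ l, p l (ω l)
  let G : Fin r → (∀ l, Ω l) → ℝ := fun i ω => ∏ l, g l i (ω l)
  have hπ0 : ∀ ω, 0 ≤ π ω := fun ω => Finset.prod_nonneg fun l _ => hp l _
  have hsum : ∀ F : ∀ l, Ω l → ℝ, ∏ l, ∑ ω, p l ω * F l ω = ∑ ω : ∀ l, Ω l, π ω * ∏ l, F l (ω l) := by
    intro F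
    rw [Finset.prod_univ_sum, Fintype.piFinset_univ]
    refine Finset.sum_congr rfl fun ω _ => ?_
    rw [← Finset.prod_mul_distrib]
  have hπ1 : ∑ ω, π ω = 1 := by
    have := hsum (fun _ _ => 1)
    simp only [mul_one, Finset.prod_const_one, hp1] at this
    exact this.symm
  have hG0 : ∀ i ω, 0 ≤ G i ω := fun i ω => Finset.prod_nonneg fun l _ => (hg l i _).1
  have hG4 : ∀ i ω, G i ω ≤ 4 ^ k := fun i ω => by
    calc G i ω ≤ ∏ _l : Fin k, (4:ℝ) :=
        Finset.prod_le_prod (fun l _ => (hg l i _).1) fun l _ => (hg l i _).2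
      _ = 4 ^ k := by rw [Finset.prod_const, Finset.card_univ, Fintype.card_fin]
  have hmeanG : ∀ i, (1 - η) ^ k ≤ ∑ ω, π ω * G i ω := by
    intro i
    rw [← hsum (fun l ω => g l i ω)]
    calc (1 - η) ^ k = ∏ _l : Fin k, (1 - η) := by
          rw [Finset.prod_const, Finset.card_univ, Fintype.card_fin]
      _ ≤ _ := Finset.prod_le_prod (fun _ _ => by linarith) fun l _ => hmean l i
  -- the model sum
  have hmodel : ∑ S ∈ (univ : Finset (Fin r)).powersetCard (m + 1),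
      ∏ l, (∑ ω, p l ω * ∏ i ∈ S, g l i ω) =
      ∑ ω, π ω * esym (m + 1) (fun i => G i ω) := by
    unfold esym
    simp only [Finset.mul_sum]
    rw [Finset.sum_comm]
    refine Finset.sum_congr rfl fun S _ => ?_
    rw [hsum (fun l ω => ∏ i ∈ S, g l i ω)]
    refine Finset.sum_congr rfl fun ω _ => ?_
    rw [Finset.prod_comm]
  have h1 : phi (4 ^ k) (m + 1) (r * (1 - η) ^ k) ≤
      ((m + 1).factorial : ℝ) * ∑ ω, π ω * esym (m + 1) (fun i => G i ω) := by
    have h2 : (r:ℝ) * (1 - η) ^ k ≤ ∑ ω, π ω * ∑ i, G i ω := by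
      simp only [Finset.mul_sum]
      rw [Finset.sum_comm]
      calc (r:ℝ) * (1 - η) ^ k = ∑ _i : Fin r, (1 - η) ^ k := by
            rw [Finset.sum_const, Finset.card_univ, Fintype.card_fin, nsmul_eq_mul]
        _ ≤ _ := Finset.sum_le_sum fun i _ => hmeanG i
    refine (phi_mono _ _ h2).trans ((jensen_w (4 ^ k) (m + 1) π _ hπ0 hπ1).trans ?_)
    rw [Finset.mul_sum]
    refine Finset.sum_le_sum fun ω _ => ?_
    have h3 := esym_ge (4 ^ k) (m + 1) (fun i => G i ω) (fun i => hG0 i ω) (fun i => hG4 i ω)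
    calc π ω * phi (4 ^ k) (m + 1) (∑ i, G i ω) ≤
          π ω * (((m + 1).factorial : ℝ) * esym (m + 1) (fun i => G i ω)) :=
          mul_le_mul_of_nonneg_left h3 (hπ0 ω)
      _ = _ := by ring
  have h2 : ∀ S ∈ (univ : Finset (Fin r)).powersetCard (m + 1),
      ∏ l, (∑ ω, p l ω * ∏ i ∈ S, g l i ω) - k * (4 ^ (m + 1)) ^ k * δ ≤ ∏ l, f l S := by
    intro S hS
    have hSc := (Finset.mem_powersetCard.mp hS).2
    refine prod_close (4 ^ (m + 1)) δ (one_le_pow₀ (by norm_num)) hδ _ _ ?_ ?_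
      (fun l => hf l S) (fun l => hcorr l S hSc)
    · intro l
      exact Finset.sum_nonneg fun ω _ => mul_nonneg (hp l ω)
        (Finset.prod_nonneg fun i _ => (hg l i ω).1)
    · intro l
      calc ∑ ω, p l ω * ∏ i ∈ S, g l i ω ≤ ∑ ω, p l ω * 4 ^ (m + 1) := by
            refine Finset.sum_le_sum fun ω _ => mul_le_mul_of_nonneg_left ?_ (hp l ω)
            calc ∏ i ∈ S, g l i ω ≤ ∏ _i ∈ S, (4:ℝ) :=
                Finset.prod_le_prod (fun i _ => (hg l i ω).1) fun i _ => (hg l i ω).2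
              _ = 4 ^ (m + 1) := by rw [Finset.prod_const, hSc]
        _ = 4 ^ (m + 1) := by rw [← Finset.sum_mul, hp1, one_mul]
  have h3 := Finset.sum_le_sum h2
  rw [Finset.sum_sub_distrib, Finset.sum_const, nsmul_eq_mul, hmodel] at h3
  have hcard : (((univ : Finset (Fin r)).powersetCard (m + 1)).card : ℝ) ≤ 2 ^ r := by
    rw [Finset.card_powersetCard, Finset.card_univ, Fintype.card_fin]
    exact_mod_cast Nat.choose_le_two_pow r (m + 1)
  have h4 : (((univ : Finset (Fin r)).powersetCard (m + 1)).card : ℝ) *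
      (k * (4 ^ (m + 1)) ^ k * δ) ≤ 2 ^ r * (k * (4 ^ (m + 1)) ^ k * δ) :=
    mul_le_mul_of_nonneg_right hcard (by positivity)
  have h5 : phi (4 ^ k) (m + 1) (r * (1 - η) ^ k) / ((m + 1).factorial : ℝ) ≤
      ∑ ω, π ω * esym (m + 1) (fun i => G i ω) := by
    rw [div_le_iff₀ hfac]
    refine h1.trans (le_of_eq ?_)
    ring
  linarith

end Pool.Agent.HLG
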