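import Mathlib
import Pool.Agent.HLT.Tuples
import Pool.Agent.HLT.CellUpper
import Pool.Agent.HLG.Comb

set_option autoImplicit false

open Finset

namespace Pool.Agent.HLG

open Pool.Agent.HLT

/-- the increasing enumeration of an `(m+1)`-subset -/
noncomputable def oe (m r : ℕ) (hmr : m + 1 ≤ r) (S : Finset (Fin r)) : Fin (m + 1) ↪ Fin r :=
  if h : S.card = m + 1 then (S.orderEmbOfFin h).toEmbedding else Fin.castLEEmb hmr

lemma image_oe {m r : ℕ} (hmr : m + 1 ≤ r) (S : Finset (Fin r)) (hS : S.card = m + 1) :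
    (univ : Finset (Fin (m + 1))).image (oe m r hmr S) = S := by
  classical
  have h1 : (oe m r hmr S : Fin (m + 1) → Fin r) = S.orderEmbOfFin hS := by
    unfold oe
    rw [dif_pos hS]
    rfl
  rw [h1]
  exact Finset.image_orderEmbOfFin_univ S hS

lemma prod_oe {m r : ℕ} (hmr : m + 1 ≤ r) (S : Finset (Fin r)) (hS : S.card = m + 1)
    (g : Fin r → ℝ) : ∏ j, g (oe m r hmr S j) = ∏ i ∈ S, g i := by
  classical
  conv_rhs => rw [← image_oe hmr S hS]
  rw [Finset.prod_image]
  intro a _ b _ hab
  exact (oe m r hmr S).injective hab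

/-- truncated means of cell averages -/
lemma trunc_mean {X V : Type} [Fintype X] [Nonempty X] [Fintype V] [Nonempty V] [DecidableEq V]
    {J : ℕ} (M ν4 : X → V → ℝ) (κ β η : ℝ) (hκ : 0 < κ) (hβ : 0 < β) (hη : 0 < η)
    (hη1 : η ≤ 1) (hκη : κ * (1 + 1 / β) ≤ η ^ 2 / 4000)
    (hM : ∀ n d, 0 ≤ M n d) (hmean : ∀ d, 1 - κ ≤ av (fun n => M n d))
    (hν : ∀ n d, 0 ≤ ν4 n d) (hMν : ∀ n d, M n d ≤ (4 + κ) * ν4 n d)
    (hmean4 : ∀ d, 1 - κ ≤ av (fun n => ν4 n d))
    (hrow : ∀ d, av (fun d' => if d' = d then 0 else max (gram ν4 d d' - 1) 0) ≤ κ)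
    (hdiag : ∀ d, gram ν4 d d ≤ κ * (Fintype.card V : ℝ))
    (χ : V → Fin J) (d : V) (hd : β * (Fintype.card V : ℝ) ≤ CellUp7.cellc χ d) :
    1 - η ≤ av (fun n => min (proj χ (M n) d) 4) := by
  have h1β : 0 < 1 / β := by positivity
  have hκ1 : κ ≤ η ^ 2 / 4000 := by nlinarith
  have hηsq : η ^ 2 ≤ η := by nlinarith
  have hκ2 : κ ≤ 1 := by nlinarith
  have h2 := CellUp7.second_moment ν4 κ β hβ hmean4 hrow hdiag χ d hd
  have h3 : 2 * κ / β + 2 * κ = 2 * (κ * (1 + 1 / β)) := by field_simp; ring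
  have h4 : av (fun n => (proj χ (ν4 n) d - 1) ^ 2) ≤ η ^ 2 / 2000 := by
    rw [h3] at h2; linarith
  -- the mean of the cell average
  have h5 : 1 - κ ≤ av (fun n => proj χ (M n) d) := by
    rw [CellUp7.av_proj_swap]
    have := proj_mono χ hmean d
    rwa [proj_const] at this
  -- pointwise
  have h6 : ∀ n, proj χ (M n) d - (κ + 5 * (η / 40 + (10 / η) * (proj χ (ν4 n) d - 1) ^ 2)) ≤
      min (proj χ (M n) d) 4 := by
    intro n
    set g := proj χ (M n) d with hg
    set p := proj χ (ν4 n) d with hp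
    have hp0 : 0 ≤ p := proj_nonneg χ (hν n) d
    have hgp : g ≤ (4 + κ) * p := by
      have := proj_mono χ (hMν n) d
      rwa [proj_mul_left] at this
    have habs : |p - 1| ≤ η / 40 + (10 / η) * (p - 1) ^ 2 := by
      have h7 : 0 ≤ (|p - 1| * 20 - η) ^ 2 := sq_nonneg _
      have h8 : |p - 1| ^ 2 = (p - 1) ^ 2 := sq_abs _
      have h9 : η / 40 + (10 / η) * (p - 1) ^ 2 = (η ^ 2 + 400 * (p - 1) ^ 2) / (40 * η) := by
        field_simp
        ring
      rw [h9, le_div_iff₀ (by positivity)]
      nlinarith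
    have hnn : 0 ≤ η / 40 + (10 / η) * (p - 1) ^ 2 := (abs_nonneg _).trans habs
    apply le_min
    · linarith
    · have h10 : p - 1 ≤ |p - 1| := le_abs_self _
      have h11 : 0 ≤ |p - 1| := abs_nonneg _
      nlinarith
  have h7 := av_mono h6
  rw [av_sub, av_add, av_const, av_mul_left, av_add, av_const, av_mul_left] at h7
  have h8 : (10 / η) * av (fun n => (proj χ (ν4 n) d - 1) ^ 2) ≤ (10 / η) * (η ^ 2 / 2000) :=
    mul_le_mul_of_nonneg_left h4 (by positivity)
  have h9 : (10 / η) * (η ^ 2 / 2000) = η / 200 := by field_simp; ring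
  rw [h9] at h8
  linarith

/-- the abstract conclusion: the correlations of almost all tuples are represented by functions
with values in `[0,4]` -/
theorem tuples_of_closeR (m r : ℕ) (hmr : m + 1 ≤ r) (η δ D ε : ℝ) (hη : 0 < η) (hη1 : η ≤ 1)
    (hδ : 0 < δ) (hD : 0 < D) (hε : 0 < ε) :
    ∃ ε1 : ℝ, 0 < ε1 ∧ ∀ J : ℕ, 0 < J → ∃ κ : ℝ, 0 < κ ∧
    ∀ (X V : Type) [Fintype X] [Nonempty X] [Fintype V] [Nonempty V] [DecidableEq V]
      (M ν4 : X → V → ℝ) (χ : V → Fin J),
      (∀ n d, 0 ≤ M n d) → (∀ d, 1 - κ ≤ av (fun n => M n d)) →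
      (∀ n d, 0 ≤ ν4 n d) → (∀ n d, M n d ≤ (4 + κ) * ν4 n d) →
      (∀ d, 1 - κ ≤ av (fun n => ν4 n d)) →
      (∀ d, av (fun d' => if d' = d then 0 else max (gram ν4 d d' - 1) 0) ≤ κ) →
      (∀ d, gram ν4 d d ≤ κ * (Fintype.card V : ℝ)) →
      av (fun e : Fin (m + 1) → V => if Function.Injective e then
        |corr M e - corr (fun n => proj χ (M n)) e| else 0) ≤ ε1 →
      ∀ (T : Type) [Fintype T] (e : T → Fin r → V),
        (∀ t, Function.Injective (e t)) →
        (∀ (I : Fin (m + 1) ↪ Fin r) (v : Fin (m + 1) → V),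
          ((univ.filter (fun t : T => ∀ i, e t (I i) = v i)).card : ℝ) ≤
            D * (Fintype.card T : ℝ) / (Fintype.card V : ℝ) ^ (m + 1)) →
        ∀ S : Finset T, (∀ t ∈ S, ¬ Rep m r η δ
          (fun I => corr M (fun i => e t (oe m r hmr I i)))) →
        (S.card : ℝ) ≤ ε * (Fintype.card T : ℝ) := by
  classical
  set PS := (univ : Finset (Fin r)).powersetCard (m + 1) with hPS
  set Nemb : ℝ := (PS.card : ℝ) with hNemb
  let I0 : Fin (m + 1) ↪ Fin r := Fin.castLEEmb hmr
  have hNpos : 0 < Nemb := by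
    have : 0 < PS.card := by
      rw [hPS, Finset.card_powersetCard, Finset.card_univ, Fintype.card_fin]
      exact Nat.choose_pos hmr
    rw [hNemb]; exact_mod_cast this
  refine ⟨ε * δ / (4 * D * Nemb), by positivity, ?_⟩
  intro J hJ
  have hJ' : (0:ℝ) < J := by exact_mod_cast hJ
  set K : ℝ := (r:ℝ) with hK
  have hKpos : 0 < K := by
    have : 0 < r := by omega
    rw [hK]; exact_mod_cast this
  set β : ℝ := ε / (4 * K * D * J) with hβ
  have hβpos : 0 < β := by positivity
  set κ : ℝ := η ^ 2 / (4000 * (1 + 1 / β)) with hκ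
  have hκpos : 0 < κ := by positivity
  have hκeq : κ * (1 + 1 / β) = η ^ 2 / 4000 := by
    rw [hκ]; field_simp
  refine ⟨κ, hκpos, ?_⟩
  intro X V _ _ _ _ _ M ν4 χ hM hmean hν hMν hmean4 hrow hdiag hclose T _ e hinj hdens S hS
  have hV : (0:ℝ) < (Fintype.card V : ℝ) := by exact_mod_cast Fintype.card_pos
  have hX : (0:ℝ) < (Fintype.card X : ℝ) := by exact_mod_cast Fintype.card_pos
  set B : ℝ := D * (Fintype.card T : ℝ) / (Fintype.card V : ℝ) ^ (m + 1) with hB
  have hcardfun : ((Fintype.card (Fin (m + 1) → V) : ℕ) : ℝ) = (Fintype.card V : ℝ) ^ (m + 1) := by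
    rw [Fintype.card_fun, Fintype.card_fin]; push_cast; rfl
  have hBav : ∀ w : (Fin (m + 1) → V) → ℝ, B * ∑ v, w v = D * (Fintype.card T : ℝ) * av w := by
    intro w
    unfold av
    rw [hcardfun, hB]
    ring
  -- weights
  let sm : V → ℝ := fun d => if ((univ.filter (fun e => χ e = χ d)).card : ℝ) <
    β * (Fintype.card V : ℝ) then (1:ℝ) else 0
  have hsm0 : ∀ d, 0 ≤ sm d := fun d => by
    show 0 ≤ (if _ then (1:ℝ) else 0)
    split_ifs <;> norm_num
  let df : (Fin (m + 1) → V) → ℝ := fun v => if Function.Injective v then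
    |corr M v - corr (fun n => proj χ (M n)) v| else 0
  have hdf0 : ∀ v, 0 ≤ df v := fun v => by
    show 0 ≤ (if Function.Injective v then
      |corr M v - corr (fun n => proj χ (M n)) v| else (0:ℝ))
    split_ifs
    · exact abs_nonneg _
    · exact le_rfl
  -- main pointwise claim
  have hpt : ∀ t : T, t ∈ S → 1 ≤
      ∑ i, sm (e t i) + ∑ I ∈ PS, df (fun i => e t (oe m r hmr I i)) * (1 / δ) := by
    intro t htS
    have hs1 : 0 ≤ ∑ i, sm (e t i) := Finset.sum_nonneg fun i _ => hsm0 _
    have hs2 : 0 ≤ ∑ I ∈ PS, df (fun i => e t (oe m r hmr I i)) * (1 / δ) :=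
      Finset.sum_nonneg fun I _ => mul_nonneg (hdf0 _) (by positivity)
    by_cases hsmall' : ∃ i, sm (e t i) = 1
    · obtain ⟨i, hi⟩ := hsmall'
      have : sm (e t i) ≤ ∑ i, sm (e t i) :=
        Finset.single_le_sum (fun j _ => hsm0 (e t j)) (Finset.mem_univ i)
      linarith
    · push Not at hsmall'
      have hbig : ∀ i, β * (Fintype.card V : ℝ) ≤ CellUp7.cellc χ (e t i) := by
        intro i
        by_contra hcon
        push Not at hcon
        apply hsmall' i
        show (if ((univ.filter (fun e' => χ e' = χ (e t i))).card : ℝ) <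
          β * (Fintype.card V : ℝ) then (1:ℝ) else 0) = 1
        exact if_pos hcon
      have hmin : ∀ i, 1 - η ≤ av (fun n => min (proj χ (M n) (e t i)) 4) := fun i =>
        trunc_mean M ν4 κ β η hκpos hβpos hη hη1 hκeq.le hM hmean hν hMν hmean4 hrow hdiag χ
          (e t i) (hbig i)
      by_cases hdf : ∃ I ∈ PS, δ ≤ df (fun i => e t (oe m r hmr I i))
      · obtain ⟨I, hI, hIδ⟩ := hdf
        have h5 : 1 ≤ df (fun i => e t (oe m r hmr I i)) * (1 / δ) := by
          calc (1:ℝ) = δ * (1 / δ) := by field_simp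
            _ ≤ _ := mul_le_mul_of_nonneg_right hIδ (by positivity)
        have h6 : df (fun i => e t (oe m r hmr I i)) * (1 / δ) ≤
            ∑ I ∈ PS, df (fun i => e t (oe m r hmr I i)) * (1 / δ) :=
          Finset.single_le_sum (f := fun I => df (fun i => e t (oe m r hmr I i)) * (1 / δ))
            (fun I _ => mul_nonneg (hdf0 _) (by positivity)) hI
        linarith
      · exfalso
        push Not at hdf
        apply hS t htS
        refine ⟨X, inferInstance, fun _ => 1 / (Fintype.card X : ℝ),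
          fun i n => min (proj χ (M n) (e t i)) 4, fun _ => by positivity, ?_, ?_, ?_, ?_⟩
        · rw [Finset.sum_const, nsmul_eq_mul, Finset.card_univ]
          field_simp
        · exact fun i n => ⟨le_min (proj_nonneg χ (hM n) _) (by norm_num), min_le_right _ _⟩
        · intro i
          refine (hmin i).trans (le_of_eq ?_)
          unfold av
          rw [← Finset.mul_sum]
          ring
        · intro I hI
          have hinjI : Function.Injective (fun i => e t (oe m r hmr I i)) :=
            (hinj t).comp (oe m r hmr I).injective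
          have hIPS : I ∈ PS := by
            rw [hPS, Finset.mem_powersetCard]
            exact ⟨Finset.subset_univ _, hI⟩
          have h1 := hdf I hIPS
          have h2 : df (fun i => e t (oe m r hmr I i)) =
              |corr M (fun i => e t (oe m r hmr I i)) -
                corr (fun n => proj χ (M n)) (fun i => e t (oe m r hmr I i))| := if_pos hinjI
          rw [h2, abs_sub_comm] at h1
          have h3 := (le_abs_self _).trans h1.le
          have h4 : ∑ n, 1 / (Fintype.card X : ℝ) * ∏ i ∈ I, min (proj χ (M n) (e t i)) 4 ≤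
              corr (fun n => proj χ (M n)) (fun i => e t (oe m r hmr I i)) := by
            have h7 : corr (fun n => proj χ (M n)) (fun i => e t (oe m r hmr I i)) =
                ∑ n, 1 / (Fintype.card X : ℝ) * ∏ i ∈ I, proj χ (M n) (e t i) := by
              unfold corr av
              rw [← Finset.mul_sum]
              have h8 : ∀ n, ∏ i, proj χ (M n) (e t (oe m r hmr I i)) =
                  ∏ i ∈ I, proj χ (M n) (e t i) := fun n =>
                prod_oe hmr I hI (fun i => proj χ (M n) (e t i))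
              rw [Finset.sum_congr rfl fun n _ => h8 n]
              ring
            rw [h7]
            refine Finset.sum_le_sum fun n _ => ?_
            have h9 : (0:ℝ) ≤ 1 / (Fintype.card X : ℝ) := by positivity
            exact mul_le_mul_of_nonneg_left (Finset.prod_le_prod
              (fun i _ => le_min (proj_nonneg χ (hM n) _) (by norm_num))
              fun i _ => min_le_left _ _) h9
          simp only
          linarith
  have hall0 : ∀ t : T, 0 ≤
      ∑ i, sm (e t i) + ∑ I ∈ PS, df (fun i => e t (oe m r hmr I i)) * (1 / δ) :=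
    fun t => add_nonneg (Finset.sum_nonneg fun i _ => hsm0 _)
      (Finset.sum_nonneg fun I _ => mul_nonneg (hdf0 _) (by positivity))
  have hcard : (S.card : ℝ) ≤ ∑ t : T,
      (∑ i, sm (e t i) + ∑ I ∈ PS, df (fun i => e t (oe m r hmr I i)) * (1 / δ)) := by
    calc (S.card : ℝ) = ∑ t ∈ S, (1:ℝ) := by simp
      _ ≤ ∑ t ∈ S, (∑ i, sm (e t i) +
          ∑ I ∈ PS, df (fun i => e t (oe m r hmr I i)) * (1 / δ)) :=
          Finset.sum_le_sum fun t ht => hpt t ht
      _ ≤ _ := Finset.sum_le_sum_of_subset_of_nonneg (Finset.subset_univ _)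
          fun t _ _ => hall0 t
  refine hcard.trans ?_
  rw [Finset.sum_add_distrib, Finset.sum_comm, Finset.sum_comm (s := (univ : Finset T))
    (t := PS)]
  have hi : ∀ i : Fin r, ∑ t, sm (e t i) ≤ D * (Fintype.card T : ℝ) * (J * β) := by
    intro i
    let I : Fin (m + 1) ↪ Fin r := I0.trans (Equiv.swap (I0 0) i).toEmbedding
    have hI0 : I 0 = i := by
      show Equiv.swap (I0 0) i (I0 0) = i
      exact Equiv.swap_apply_left _ _
    have h1 := A6_sum (fun t i => e t (I i)) (hdens I) (fun v => sm (v 0)) (fun v => hsm0 _)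
    rw [hBav, A6_av0] at h1
    have h2 : ∀ t, sm (e t i) = sm (e t (I 0)) := fun t => by rw [hI0]
    simp only [h2]
    refine h1.trans ?_
    refine mul_le_mul_of_nonneg_left ?_ (by positivity)
    exact A6_small χ hβpos
  have hii : ∀ I ∈ PS, ∑ t, df (fun i => e t (oe m r hmr I i)) * (1 / δ) ≤
      D * (Fintype.card T : ℝ) * ((ε * δ / (4 * D * Nemb)) * (1 / δ)) := by
    intro I _
    have h1 := A6_sum (fun t i => e t (oe m r hmr I i)) (hdens (oe m r hmr I))
      (fun v => df v * (1 / δ)) (fun v => mul_nonneg (hdf0 _) (by positivity))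
    rw [hBav] at h1
    refine h1.trans ?_
    refine mul_le_mul_of_nonneg_left ?_ (by positivity)
    rw [av_mul_right]
    exact mul_le_mul_of_nonneg_right hclose (by positivity)
  refine (add_le_add (Finset.sum_le_sum fun i _ => hi i)
    (Finset.sum_le_sum fun I hI => hii I hI)).trans ?_
  rw [Finset.sum_const, Finset.sum_const, nsmul_eq_mul, nsmul_eq_mul, Finset.card_univ,
    Fintype.card_fin]
  have hT : (0:ℝ) ≤ (Fintype.card T : ℝ) := by positivity
  have e1 : (r : ℝ) * (D * (Fintype.card T : ℝ) * (J * β)) =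
      ε / 4 * (Fintype.card T : ℝ) := by
    rw [hβ, ← hK]
    field_simp
  have e2 : (PS.card : ℝ) * (D * (Fintype.card T : ℝ) *
      ((ε * δ / (4 * D * Nemb)) * (1 / δ))) = ε / 4 * (Fintype.card T : ℝ) := by
    rw [← hNemb]
    field_simp
  rw [e1, e2]
  nlinarith

end Pool.Agent.HLG
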