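import Mathlib
import Pool.Agent.HLF.ClassB
import Pool.Agent.HLF.ClassD
import Pool.Agent.HLF.Solve
import Pool.Agent.HLF.Main
import Pool.Agent.HLG.Tup

set_option autoImplicit false

open Finset Filter

namespace Pool.Agent.HLG

open Pool.Agent.HLT Pool.Agent.HL26 Pool.Agent.HLF

/-- the linear forms `W * a_i . u` -/
def lin {r s : ℕ} (W : ℕ) (a : Fin r → Fin s → ℕ) (u : Fin s → ℕ) (i : Fin r) : ℕ :=
  W * ∑ t, a i t * u t

lemma lin_eq_val {r s : ℕ} (W : ℕ) (a : Fin r → Fin s → ℕ) (u : Fin s → ℕ) :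
    lin W a u = val a (fun _ => 0) (pt W (fun _ => 0) u) := by
  funext i
  rw [val_pt]
  unfold Pool.Agent.HLF.val lin
  simp

lemma card_VS_zero (w h : ℕ) : ((VS w (Wp w * h) {0}).card : ℕ) ≤ h + 1 := by
  have h1 : VS w (Wp w * h) {0} ⊆ (Finset.range (h + 1)).image (fun j => Wp w * j) := by
    intro d hd
    unfold VS at hd
    rw [Finset.mem_filter, Finset.mem_range, Finset.mem_singleton] at hd
    obtain ⟨j, rfl⟩ := Nat.dvd_of_mod_eq_zero hd.2
    rw [Finset.mem_image]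
    refine ⟨j, ?_, rfl⟩
    rw [Finset.mem_range]
    have h2 : Wp w * j ≤ Wp w * h := by omega
    have h3 := Nat.le_of_mul_le_mul_left h2 (f1_Wp_pos w)
    omega
  refine (Finset.card_le_card h1).trans (Finset.card_image_le.trans ?_)
  rw [Finset.card_range]

lemma mem_VS_zero (w U Ca : ℕ) {r s : ℕ} (a : Fin r → Fin s → ℕ) (hCa : ∀ i, ∑ t, a i t ≤ Ca)
    (u0 : ℕ) (hu0 : u0 < U) (u : Fin s → ℕ) (hu : ∀ t, u t < U) (i : Fin r) :
    Wp w * u0 + lin (Wp w) a u i ∈ VS w (Wp w * ((1 + Ca) * U)) {0} := by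
  unfold VS lin
  rw [Finset.mem_filter, Finset.mem_range, Finset.mem_singleton, ← Nat.mul_add]
  refine ⟨?_, Nat.mul_mod_right _ _⟩
  have h1 : ∑ t, a i t * u t ≤ Ca * U := by
    calc ∑ t, a i t * u t ≤ ∑ t, a i t * U :=
          Finset.sum_le_sum fun t _ => Nat.mul_le_mul_left _ (hu t).le
      _ = (∑ t, a i t) * U := by rw [Finset.sum_mul]
      _ ≤ _ := Nat.mul_le_mul_right _ (hCa i)
  have h2 : u0 + ∑ t, a i t * u t ≤ (1 + Ca) * U := by
    rw [Nat.add_mul, Nat.one_mul]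
    omega
  exact Nat.lt_succ_of_le (Nat.mul_le_mul_left _ h2)

open Classical in
/-- almost all points have a good shift -/
lemma bound_one (m r s : ℕ) (hmr : m + 1 ≤ r) (η δ : ℝ) (a : Fin r → Fin s → ℕ)
    (ha : ∀ I : Fin (m + 1) ↪ Fin r,
      AffineIndependent ℚ (fun j : Fin (m + 1) => (fun t : Fin s => (a (I j) t : ℚ))))
    (ha' : ∀ i j, i ≠ j → a i ≠ a j)
    (Ca : ℕ) (hCa : ∀ i, ∑ t, a i t ≤ Ca) (w U N a0 : ℕ)
    (hU : 2 * (r * r) ≤ U) (ε' : ℝ) (hε' : 0 ≤ ε')
    (hct : ∀ (T : Type) [Fintype T] (e : T → Fin r → ℕ),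
      (∀ t i, e t i ∈ VS w (Wp w * ((1 + Ca) * U)) {0}) → (∀ t, Function.Injective (e t)) →
      (∀ (I : Fin (m + 1) ↪ Fin r) (v : Fin (m + 1) → ℕ),
        ((univ.filter (fun t : T => ∀ i, e t (I i) = v i)).card : ℝ) ≤
          (2 * (2 * (1 + Ca)) ^ (m + 1)) * (Fintype.card T : ℝ) /
            ((VS w (Wp w * ((1 + Ca) * U)) {0}).card : ℝ) ^ (m + 1)) →
      ∀ S : Finset T, (∀ t ∈ S, ¬ Rep m r η δ
        (fun I => ncnt N w a0 (fun i => e t (oe m r hmr I i)))) →
      (S.card : ℝ) ≤ ε' * (Fintype.card T : ℝ))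
    (S : Finset (Fin s → Fin U))
    (hS : ∀ u ∈ S, Function.Injective (lin (Wp w) a (fun t => (u t : ℕ))) ∧
      ∀ u0 : Fin U, ¬ Rep m r η δ (fun I => ncnt N w a0
        (fun i => Wp w * (u0 : ℕ) + lin (Wp w) a (fun t => (u t : ℕ)) (oe m r hmr I i)))) :
    (S.card : ℝ) ≤ ε' * (U : ℝ) ^ s := by
  have hr : 0 < r := by omega
  have hWpos := f1_Wp_pos w
  have hkr : 1 ≤ r * r := Nat.mul_pos hr hr
  have hUpos : 0 < U := by omega
  have hUR : (0:ℝ) < (U:ℝ) := by exact_mod_cast hUpos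
  have hVle : ((VS w (Wp w * ((1 + Ca) * U)) {0}).card : ℝ) ≤ 2 * (1 + Ca) * U := by
    have h1 := card_VS_zero w ((1 + Ca) * U)
    have h2 : (1 + Ca) * U + 1 ≤ 2 * (1 + Ca) * U := by
      have h3 : 1 ≤ (1 + Ca) * U := Nat.one_le_iff_ne_zero.mpr (by positivity)
      nlinarith
    exact_mod_cast h1.trans h2
  let T : Type := {p : Fin U × (Fin s → Fin U) //
    Function.Injective (lin (Wp w) a (fun t => (p.2 t : ℕ)))}
  have hT : (U:ℝ) ^ (s + 1) ≤ 2 * (Fintype.card T : ℝ) := by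
    have h1 := few_coincide hr (Wp w) U hWpos hU a ha' (fun _ => 0) (fun _ => 0)
    simp only [← lin_eq_val] at h1
    have h2 : Fintype.card T = ((univ : Finset (Fin U × (Fin s → Fin U))).filter (fun p =>
        Function.Injective (lin (Wp w) a (fun t => (p.2 t : ℕ))))).card :=
      Fintype.card_subtype _
    have h3 : ((univ : Finset (Fin U)) ×ˢ ((univ : Finset (Fin s → Fin U)).filter (fun u =>
        Function.Injective (lin (Wp w) a (fun t => (u t : ℕ)))))) ⊆
        (univ : Finset (Fin U × (Fin s → Fin U))).filter (fun p =>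
        Function.Injective (lin (Wp w) a (fun t => (p.2 t : ℕ)))) := by
      intro p hp
      rw [Finset.mem_product] at hp
      rw [Finset.mem_filter]
      exact ⟨Finset.mem_univ _, (Finset.mem_filter.mp hp.2).2⟩
    have h4 := Finset.card_le_card h3
    rw [Finset.card_product, Finset.card_univ, Fintype.card_fin, ← h2] at h4
    have h5 : U ^ (s + 1) ≤ 2 * Fintype.card T := by
      calc U ^ (s + 1) = U * U ^ s := by ring
        _ ≤ U * (2 * _) := Nat.mul_le_mul_left _ h1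
        _ = 2 * (U * _) := by ring
        _ ≤ _ := Nat.mul_le_mul_left _ h4
    exact_mod_cast h5
  have hTle : (Fintype.card T : ℝ) ≤ (U:ℝ) ^ (s + 1) := by
    have h1 : Fintype.card T ≤ Fintype.card (Fin U × (Fin s → Fin U)) :=
      Fintype.card_subtype_le _
    rw [Fintype.card_prod, Fintype.card_fun, Fintype.card_fin, Fintype.card_fin] at h1
    have h2 : Fintype.card T ≤ U ^ (s + 1) := h1.trans (le_of_eq (by ring))
    exact_mod_cast h2
  have hTne : Nonempty T := by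
    have h4 : (0:ℝ) < (U:ℝ) ^ (s + 1) := by positivity
    have h5 : (0:ℝ) < (Fintype.card T : ℝ) := by linarith
    exact Fintype.card_pos_iff.mp (by exact_mod_cast h5)
  -- positivity of the number of shifts
  have hVpos : (0:ℝ) < ((VS w (Wp w * ((1 + Ca) * U)) {0}).card : ℝ) := by
    have t := Classical.choice hTne
    have h1 := mem_VS_zero w U Ca a hCa t.1.1 t.1.1.2 (fun q => (t.1.2 q : ℕ))
      (fun q => (t.1.2 q).2) ⟨0, hr⟩
    exact_mod_cast Finset.card_pos.mpr ⟨_, h1⟩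
  -- the exceptional set
  let F : Finset T := univ.filter (fun t : T => ¬ Rep m r η δ
    (fun I => ncnt N w a0 (fun i => Wp w * (t.1.1 : ℕ) +
      lin (Wp w) a (fun q => (t.1.2 q : ℕ)) (oe m r hmr I i))))
  have hF : (F.card : ℝ) ≤ ε' * (Fintype.card T : ℝ) := by
    refine hct T
      (fun t i => Wp w * (t.1.1 : ℕ) + lin (Wp w) a (fun q => (t.1.2 q : ℕ)) i)
      (fun t i => mem_VS_zero w U Ca a hCa _ t.1.1.2 _ (fun q => (t.1.2 q).2) i)
      (fun t i j hij => t.2 (by simpa using hij)) ?_ F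
      (fun t ht => (Finset.mem_filter.mp ht).2)
    intro I v
    set G := (univ.filter (fun t : T => ∀ i, Wp w * (t.1.1 : ℕ) +
      lin (Wp w) a (fun q => (t.1.2 q : ℕ)) (I i) = v i)) with hG
    have h1 : G.card * U ^ (m + 1) ≤ U ^ (s + 1) := by
      refine le_trans (Nat.mul_le_mul_right _ ?_) (solve_count (fun j => a (I j)) (ha I) U
        (fun j => v j / Wp w))
      refine Finset.card_le_card_of_injOn (fun t : T => t.1) ?_
        (fun t _ t' _ h => Subtype.ext h)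
      intro t ht
      rw [Finset.mem_coe, hG, Finset.mem_filter] at ht
      rw [Finset.mem_coe, Finset.mem_filter]
      refine ⟨Finset.mem_univ _, fun j => ?_⟩
      have h2 := ht.2 j
      unfold lin at h2
      rw [← h2, ← Nat.mul_add, Nat.mul_div_cancel_left _ hWpos]
    have h2 : (G.card : ℝ) * (U:ℝ) ^ (m + 1) ≤ (U:ℝ) ^ (s + 1) := by exact_mod_cast h1
    rw [le_div_iff₀ (by positivity)]
    calc (G.card : ℝ) * ((VS w (Wp w * ((1 + Ca) * U)) {0}).card : ℝ) ^ (m + 1) ≤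
          (G.card : ℝ) * (2 * (1 + Ca) * U) ^ (m + 1) :=
          mul_le_mul_of_nonneg_left (pow_le_pow_left₀ hVpos.le hVle _) (by positivity)
      _ = (2 * (1 + Ca)) ^ (m + 1) * ((G.card : ℝ) * (U:ℝ) ^ (m + 1)) := by
          rw [mul_pow _ (U:ℝ)]
          ring
      _ ≤ (2 * (1 + Ca)) ^ (m + 1) * (2 * (Fintype.card T : ℝ)) :=
          mul_le_mul_of_nonneg_left (h2.trans hT) (by positivity)
      _ = _ := by ring
  have h1 : U * S.card ≤ F.card := by
    have h2 : ((univ : Finset (Fin U)) ×ˢ S).card ≤ F.card := by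
      refine Finset.card_le_card_of_injOn (fun p : Fin U × (Fin s → Fin U) =>
        if hp : p.2 ∈ S then (⟨p, (hS p.2 hp).1⟩ : T) else Classical.choice hTne) ?_ ?_
      · intro p hp
        rw [Finset.mem_coe, Finset.mem_product] at hp
        simp only
        rw [dif_pos hp.2, Finset.mem_coe]
        exact Finset.mem_filter.mpr ⟨Finset.mem_univ _, (hS p.2 hp.2).2 p.1⟩
      · intro p hp q hq hpq
        rw [Finset.mem_coe, Finset.mem_product] at hp hq
        simp only at hpq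
        rw [dif_pos hp.2, dif_pos hq.2] at hpq
        exact congrArg Subtype.val hpq
    rw [Finset.card_product, Finset.card_univ, Fintype.card_fin] at h2
    exact h2
  have h3 : (U:ℝ) * (S.card : ℝ) ≤ (F.card : ℝ) := by exact_mod_cast h1
  have h4 : (U:ℝ) * (S.card : ℝ) ≤ (U:ℝ) * (ε' * (U : ℝ) ^ s) := by
    calc (U:ℝ) * (S.card : ℝ) ≤ (F.card : ℝ) := h3
      _ ≤ ε' * (Fintype.card T : ℝ) := hF
      _ ≤ ε' * (U:ℝ) ^ (s + 1) := mul_le_mul_of_nonneg_left hTle hε'
      _ = _ := by ring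
  exact le_of_mul_le_mul_left h4 hUR

end Pool.Agent.HLG
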