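import Mathlib
import Pool.Agent.HLT.ClassTuples
import Pool.Agent.HLT.Maj4
import Pool.Agent.HLF.ClassD
import Pool.Agent.HLG.Tup

set_option autoImplicit false

open Finset Filter

namespace Pool.Agent.HLG

open Pool.Agent.HLT Pool.Agent.HL26 Pool.Agent.Maynard Pool.Agent.HLF

/-- the per-class theorem: for almost all tuples the normalised counts in a class are represented
by functions with values in `[0,4]` -/
theorem class_tuplesR (m r : ℕ) (hm : 1 ≤ m) (hmr : m + 1 ≤ r) (η δ D ε : ℝ) (hη : 0 < η)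
    (hη1 : η ≤ 1) (hδ : 0 < δ) (hD : 0 < D) (hε : 0 < ε) :
    ∃ w0 : ℕ, ∀ w : ℕ, w0 ≤ w → ∃ K : ℝ, ∀ A : ℕ, ∀ᶠ N : ℕ in atTop, ∀ H : ℕ,
    K * Real.log N ≤ H → (H:ℝ) ≤ (Real.log N) ^ A →
    ∀ (a : ℕ) (ρ : Finset ℕ), ρ.Nonempty → (∀ r ∈ ρ, r < Wp w ∧ (a + r).Coprime (Wp w)) →
    ∀ (T : Type) [Fintype T] (e : T → Fin r → ℕ),
      (∀ t i, e t i ∈ VS w H ρ) → (∀ t, Function.Injective (e t)) →
      (∀ (I : Fin (m + 1) ↪ Fin r) (v : Fin (m + 1) → ℕ),
        ((univ.filter (fun t : T => ∀ i, e t (I i) = v i)).card : ℝ) ≤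
          D * (Fintype.card T : ℝ) / ((VS w H ρ).card : ℝ) ^ (m + 1)) →
      ∀ S : Finset T, (∀ t ∈ S, ¬ Rep m r η δ
        (fun I => ncnt N w a (fun i => e t (oe m r hmr I i)))) →
      (S.card : ℝ) ≤ ε * (Fintype.card T : ℝ) := by
  obtain ⟨ε1, hε1, hA6⟩ := tuples_of_closeR m r hmr η δ D ε hη hη1 hδ hD hε
  obtain ⟨cp, hcp, hA3⟩ := close_tuples m hm 10 ε1 (by norm_num) hε1
  obtain ⟨C, hC, hB9⟩ := nt_PR m hm cp hcp
  obtain ⟨κ, hκ, J, hJ, hclose⟩ := hA3 C hC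
  obtain ⟨κ', hκ', htup⟩ := hA6 J hJ
  obtain ⟨w0, hw0⟩ := hB9 (min κ κ') (lt_min hκ hκ')
  obtain ⟨w1, hw1⟩ := maj_four κ' hκ'
  refine ⟨max w0 w1, fun w hw => ?_⟩
  obtain ⟨K, hK⟩ := hw0 w ((le_max_left _ _).trans hw)
  obtain ⟨K', hK'⟩ := hw1 w ((le_max_right _ _).trans hw)
  refine ⟨max K K', fun A => ?_⟩
  filter_upwards [hK A, hK' A, eventually_ge_atTop 2] with N hN hN' hN2 H h1 h2 a ρ hρ hρ'
    T _ e heV hinj hdens S hS
  have hlog : 0 ≤ Real.log N := Real.log_natCast_nonneg N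
  obtain ⟨hXne, hVne, ⟨ν, hPR⟩, hmean, _⟩ := hN H
    ((mul_le_mul_of_nonneg_right (le_max_left _ _) hlog).trans h1) h2 a ρ hρ hρ'
  obtain ⟨ν4, h40, h4le, h4mean, h4row, h4diag⟩ := hN' H
    ((mul_le_mul_of_nonneg_right (le_max_right _ _) hlog).trans h1) h2 a ρ hρ hρ'
  have : Nonempty (XS N w a) := hXne.to_subtype
  have : Nonempty (VS w H ρ) := hVne.to_subtype
  obtain ⟨χ, hχ⟩ := hclose (XS N w a) (VS w H ρ) (MM N w) ν _ (hPR.weaken (min_le_left _ _))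
  have hκκ : min κ κ' ≤ κ' := min_le_right _ _
  refine htup (XS N w a) (VS w H ρ) (MM N w) ν4 χ hPR.nonneg
    (fun d => (by linarith : 1 - κ' ≤ 1 - min κ κ').trans (hmean d)) h40 h4le h4mean h4row
    h4diag hχ T (fun t i => ⟨e t i, heV t i⟩)
    (fun t i j hij => hinj t (by simpa using hij))
    (fun I v => by
      rw [Fintype.card_coe]
      refine le_trans (le_of_eq ?_) (hdens I (fun i => (v i : ℕ)))
      congr 2
      ext t
      simp only [mem_filter, mem_univ, true_and]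
      exact forall_congr' fun i => by rw [Subtype.ext_iff]) S ?_
  intro t ht hgood
  apply hS t ht
  have e1 : (fun I : Finset (Fin r) => ncnt N w a (fun i => e t (oe m r hmr I i))) =
      (fun I : Finset (Fin r) => corr (MM N w (S := XS N w a) (T := VS w H ρ))
        (fun i => (⟨e t (oe m r hmr I i), heV t (oe m r hmr I i)⟩ : VS w H ρ))) := by
    funext I
    rw [corr_MM_eq]
    rfl
  rw [e1]
  exact hgood

end Pool.Agent.HLG
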