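import Mathlib
import Pool.Agent.HLT.Final1
import Pool.Agent.HLT.Sing2

set_option autoImplicit false

open Finset Filter

namespace Pool.Agent.HLG

open Pool.Agent.HLT Pool.Agent.HL26 Pool.Agent.Maynard

/-- lower bound for the number of prime tuples by the counts in disjoint shifted blocks -/
lemma count_blocks {ι : Type} [Fintype ι] (w : ℕ) (x : ℝ) (E : Finset ℕ) (hE : E.Nonempty)
    (N a sh : ι → ℕ) (hx : ∀ q, ((2 * N q + sh q + sInf (E : Set ℕ) : ℕ) : ℝ) ≤ x)
    (hdisj : ∀ q q', q ≠ q' → ∀ n ∈ XS (N q) w (a q), ∀ n' ∈ XS (N q') w (a q'),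
      n + sh q ≠ n' + sh q') :
    ∑ q, (((XS (N q) w (a q)).filter (fun n => ∀ e ∈ E, (n + (sh q + e)).Prime)).card : ℝ) ≤
      (tupleCount x (translate0 E) : ℝ) := by
  classical
  have hmin : ∀ e ∈ E, sInf (E : Set ℕ) ≤ e := fun e he => Nat.sInf_le he
  have h0 : ∑ q, ((XS (N q) w (a q)).filter (fun n => ∀ e ∈ E, (n + (sh q + e)).Prime)).card =
      ((univ : Finset ι).sigma (fun q => (XS (N q) w (a q)).filter
        (fun n => ∀ e ∈ E, (n + (sh q + e)).Prime))).card := by
    rw [Finset.card_sigma]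
  have h1 : ((univ : Finset ι).sigma (fun q => (XS (N q) w (a q)).filter
        (fun n => ∀ e ∈ E, (n + (sh q + e)).Prime))).card ≤ tupleCount x (translate0 E) := by
    unfold tupleCount
    refine Finset.card_le_card_of_injOn
      (fun p => p.2 + sh p.1 + sInf (E : Set ℕ)) ?_ ?_
    · rintro ⟨q, n⟩ hn
      rw [Finset.mem_coe, Finset.mem_sigma, Finset.mem_filter] at hn
      obtain ⟨_, hn1, hn2⟩ := hn
      unfold XS at hn1
      rw [Finset.mem_filter, Finset.mem_Ioc] at hn1
      simp only at hn1 hn2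
      rw [Finset.mem_coe, Finset.mem_filter, Finset.mem_Icc]
      simp only
      refine ⟨⟨by omega, ?_⟩, ?_⟩
      · refine Nat.le_floor (le_trans ?_ (hx q))
        exact_mod_cast (by omega : n + sh q + sInf (E : Set ℕ) ≤
          2 * N q + sh q + sInf (E : Set ℕ))
      · intro e he
        unfold translate0 at he
        obtain ⟨f, hf, rfl⟩ := Finset.mem_image.1 he
        have h1 := hmin f hf
        have h2 : n + sh q + sInf (E : Set ℕ) + (f - sInf (E : Set ℕ)) = n + (sh q + f) := by
          omega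
        rw [h2]
        exact hn2 f hf
    · rintro ⟨q, n⟩ hn ⟨q', n'⟩ hn' h
      rw [Finset.mem_coe, Finset.mem_sigma, Finset.mem_filter] at hn hn'
      simp only at h hn hn'
      have h2 : n + sh q = n' + sh q' := by omega
      by_cases hqq : q = q'
      · subst hqq
        have : n = n' := by omega
        rw [this]
      · exact absurd h2 (hdisj q q' hqq n hn.2.1 n' hn'.2.1)
  rw [← h0] at h1
  exact_mod_cast h1

end Pool.Agent.HLG
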