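import Pool.Agent.HLF.Irr

set_option autoImplicit false

open Finset Filter

namespace Pool.Agent.HLG

open Pool.Agent.HLT Pool.Agent.HLF

/-- one moving argument -/
theorem line_leθ {w : ℕ} {κ θ : ℝ} (hθ : 0 < θ) {P Q g G M : ℕ} (hg : 0 < g) (hgG : g ≤ G)
    (hrow : ∀ c : ℕ, ∑ v ∈ (Finset.Icc P (P + G * M)).filter (fun v => v ≡ c [MOD Wp w]),
        (if v = Q then 0 else pp w (Nat.dist Q v) ^ 1 - 1) ≤ κ * (((G * M : ℕ) : ℝ) / Wp w)) :
    (((Finset.range M).filter (fun u => P + g * u = Q ∨
      1 + θ < pp w (Nat.dist (P + g * u) Q))).card : ℝ) ≤ κ / θ * ((G * M : ℕ) : ℝ) + 1 := by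
  classical
  have hW : 0 < Wp w := B6aux.Wp_pos w
  have hWR : (0:ℝ) < Wp w := by exact_mod_cast hW
  set f : ℕ → ℝ := fun v => if v = Q then 0 else pp w (Nat.dist Q v) ^ 1 - 1 with hf
  have hf0 : ∀ v, 0 ≤ f v := by
    intro v
    simp only [hf, pow_one]
    split_ifs
    · exact le_refl _
    · exact sub_nonneg.2 (one_le_pp _ _)
  have hall : ∑ v ∈ Finset.Icc P (P + G * M), f v ≤ κ * ((G * M : ℕ) : ℝ) := by
    have hmaps : ∀ v ∈ Finset.Icc P (P + G * M), v % Wp w ∈ Finset.range (Wp w) := fun v _ =>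
      Finset.mem_range.2 (Nat.mod_lt _ hW)
    rw [← Finset.sum_fiberwise_of_maps_to hmaps]
    calc _ ≤ ∑ c ∈ Finset.range (Wp w), κ * (((G * M : ℕ) : ℝ) / Wp w) := by
          refine Finset.sum_le_sum fun c hc => ?_
          have h1 := hrow c
          have h2 : (Finset.Icc P (P + G * M)).filter (fun v => v % Wp w = c) =
              (Finset.Icc P (P + G * M)).filter (fun v => v ≡ c [MOD Wp w]) := by
            refine Finset.filter_congr fun v _ => ?_
            show v % Wp w = c ↔ v % Wp w = c % Wp w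
            rw [Nat.mod_eq_of_lt (Finset.mem_range.1 hc)]
          rw [h2]
          exact h1
      _ = κ * ((G * M : ℕ) : ℝ) := by
          rw [Finset.sum_const, Finset.card_range, nsmul_eq_mul]
          field_simp
  have hinj : ∀ u u' : ℕ, P + g * u = P + g * u' → u = u' := fun u u' h =>
    Nat.eq_of_mul_eq_mul_left hg (by omega)
  rw [Finset.filter_or]
  have hc1 : ((Finset.range M).filter (fun u => P + g * u = Q)).card ≤ 1 := by
    rw [Finset.card_le_one]
    intro u hu u' hu'
    exact hinj u u' ((Finset.mem_filter.1 hu).2.trans (Finset.mem_filter.1 hu').2.symm)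
  have hc2' : θ * (((Finset.range M).filter
      (fun u => 1 + θ < pp w (Nat.dist (P + g * u) Q))).card : ℝ) ≤ κ * ((G * M : ℕ) : ℝ) := by
    calc θ * (((Finset.range M).filter
          (fun u => 1 + θ < pp w (Nat.dist (P + g * u) Q))).card : ℝ)
        = ∑ u ∈ (Finset.range M).filter (fun u => 1 + θ < pp w (Nat.dist (P + g * u) Q)), θ := by
          rw [Finset.sum_const, nsmul_eq_mul, mul_comm]
      _ ≤ ∑ u ∈ (Finset.range M).filter (fun u => 1 + θ < pp w (Nat.dist (P + g * u) Q)),
          f (P + g * u) := by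
          refine Finset.sum_le_sum fun u hu => ?_
          have h1 := (Finset.mem_filter.1 hu).2
          have h2 : P + g * u ≠ Q := by
            intro h
            have h0 : pp w 0 = 1 := by simp [pp]
            rw [h, Nat.dist_self, h0] at h1
            linarith
          simp only [hf]
          rw [if_neg h2, pow_one, Nat.dist_comm]
          linarith
      _ = ∑ v ∈ ((Finset.range M).filter (fun u => 1 + θ < pp w (Nat.dist (P + g * u) Q))).image
          (fun u => P + g * u), f v := by
          rw [Finset.sum_image]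
          intro u _ u' _ h
          exact hinj u u' h
      _ ≤ ∑ v ∈ Finset.Icc P (P + G * M), f v := by
          refine Finset.sum_le_sum_of_subset_of_nonneg ?_ (fun v _ _ => hf0 v)
          intro v hv
          obtain ⟨u, hu, rfl⟩ := Finset.mem_image.1 hv
          have h1 := Finset.mem_range.1 (Finset.mem_filter.1 hu).1
          rw [Finset.mem_Icc]
          refine ⟨Nat.le_add_right _ _, Nat.add_le_add_left ?_ _⟩
          exact Nat.mul_le_mul hgG h1.le
      _ ≤ _ := hall
  have hc2 : (((Finset.range M).filter (fun u => 1 + θ < pp w (Nat.dist (P + g * u) Q))).card : ℝ) ≤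
      κ / θ * ((G * M : ℕ) : ℝ) := by
    rw [div_mul_eq_mul_div, le_div_iff₀ hθ, mul_comm]
    exact hc2'
  calc ((((Finset.range M).filter (fun u => P + g * u = Q)) ∪
        ((Finset.range M).filter (fun u => 1 + θ < pp w (Nat.dist (P + g * u) Q)))).card : ℝ)
      ≤ (((Finset.range M).filter (fun u => P + g * u = Q)).card : ℝ) +
        (((Finset.range M).filter (fun u => 1 + θ < pp w (Nat.dist (P + g * u) Q))).card : ℝ) := by
        exact_mod_cast Finset.card_union_le _ _
    _ ≤ 1 + κ / θ * ((G * M : ℕ) : ℝ) := add_le_add (by exact_mod_cast hc1) hc2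
    _ = _ := by ring

theorem irregularθ {r s : ℕ} (a : Fin r → Fin s → ℕ) (ha : ∀ i j, i ≠ j → a i ≠ a j) (θ ε : ℝ)
    (hθ : 0 < θ) (hε : 0 < ε) :
    ∃ w0 : ℕ, ∀ w : ℕ, w0 ≤ w → ∀ A : ℕ, ∀ᶠ N : ℕ in atTop, ∀ (M : ℕ) (b : Fin r → ℕ),
      Real.log N ≤ M → (M:ℝ) ≤ (Real.log N) ^ A → (∀ i, (b i : ℝ) ≤ (Real.log N) ^ A) →
      (((Fintype.piFinset (fun _ : Fin s => Finset.range M)).filter (fun y =>
        ∃ i j, i ≠ j ∧ (val a b y i = val a b y j ∨
          1 + θ < pp w (Nat.dist (val a b y i) (val a b y j))))).card : ℝ) ≤ ε * (M:ℝ) ^ s := by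
  set G : ℕ := (∑ i, ∑ t, a i t) + 1 with hG
  have hG1 : 1 ≤ G := Nat.le_add_left _ _
  have hGR : (1:ℝ) ≤ G := by exact_mod_cast hG1
  have haG : ∀ i, ∑ t, a i t ≤ G := fun i =>
    (Finset.single_le_sum (f := fun i => ∑ t, a i t) (fun _ _ => Nat.zero_le _)
      (Finset.mem_univ i)).trans (Nat.le_succ _)
  have haG' : ∀ i t, a i t ≤ G := fun i t =>
    (Finset.single_le_sum (f := fun t => a i t) (fun _ _ => Nat.zero_le _)
      (Finset.mem_univ t)).trans (haG i)
  set δ : ℝ := ε / (2 * ((r:ℝ) ^ 2 + 1)) with hδ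
  have hδ0 : 0 < δ := by positivity
  obtain ⟨w0, hw0⟩ := row_far 1 (δ * θ / G) (by positivity)
  refine ⟨w0, fun w hw A => ?_⟩
  have hlog : Tendsto (fun N : ℕ => Real.log N) atTop atTop :=
    Real.tendsto_log_atTop.comp tendsto_natCast_atTop_atTop
  filter_upwards [hw0 w hw (A + 1), hlog.eventually_ge_atTop ((G:ℝ) + 1),
    hlog.eventually_ge_atTop (1 / δ), hlog.eventually_ge_atTop 1] with N hN hl1 hl2 hl3 M b hM1 hM2 hb
  have hM0 : 0 < M := by
    have : (0:ℝ) < M := by linarith
    exact_mod_cast this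
  have hMR : (0:ℝ) < M := by exact_mod_cast hM0
  have hpow : (Real.log N) ^ (A + 1) = (Real.log N) ^ A * Real.log N := pow_succ _ _
  have hpow0 : (0:ℝ) < (Real.log N) ^ A := by positivity
  -- one ordered pair
  have hone : ∀ i j : Fin r, ∀ t : Fin s, a j t < a i t →
      (((Fintype.piFinset (fun _ : Fin s => Finset.range M)).filter (fun y =>
        val a b y i = val a b y j ∨
          1 + θ < pp w (Nat.dist (val a b y i) (val a b y j)))).card : ℝ) ≤ (2 * δ) * (M:ℝ) ^ s := by
    intro i j t hlt
    refine fibre_le hM0 t _ _ fun y hy => ?_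
    have hyM : ∀ t', y t' < M := fun t' => Finset.mem_range.1 (Fintype.mem_piFinset.1 hy t')
    set P : Fin r → ℕ := fun i => b i + ∑ t' ∈ Finset.univ.erase t, a i t' * y t' with hP
    have hPle : ∀ i, (P i : ℝ) ≤ (Real.log N) ^ (A + 1) := by
      intro i
      have h1 : ∑ t' ∈ Finset.univ.erase t, a i t' * y t' ≤ G * M := by
        calc _ ≤ ∑ t' ∈ Finset.univ.erase t, a i t' * M :=
              Finset.sum_le_sum fun t' _ => Nat.mul_le_mul_left _ (hyM t').le
          _ ≤ ∑ t', a i t' * M := Finset.sum_le_sum_of_subset (Finset.erase_subset _ _)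
          _ = (∑ t', a i t') * M := by rw [Finset.sum_mul]
          _ ≤ G * M := Nat.mul_le_mul_right _ (haG i)
      have h2 : ((∑ t' ∈ Finset.univ.erase t, a i t' * y t' : ℕ) : ℝ) ≤ G * M := by
        exact_mod_cast h1
      have h3 : (G:ℝ) * M ≤ G * (Real.log N) ^ A := mul_le_mul_of_nonneg_left hM2 (by positivity)
      have h4 : (P i : ℝ) = (b i : ℝ) + ((∑ t' ∈ Finset.univ.erase t, a i t' * y t' : ℕ) : ℝ) := by
        simp only [hP]
        push_cast
        ring
      rw [h4, hpow]
      nlinarith [hb i, mul_le_mul_of_nonneg_left hl1 hpow0.le]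
    have hGM1 : Real.log N ≤ ((G * M : ℕ) : ℝ) := by
      push_cast
      nlinarith
    have hGM2 : ((G * M : ℕ) : ℝ) ≤ (Real.log N) ^ (A + 1) := by
      push_cast
      rw [hpow]
      nlinarith [mul_le_mul_of_nonneg_left hM2 (by positivity : (0:ℝ) ≤ G),
        mul_le_mul_of_nonneg_left hl1 hpow0.le]
    have hline := line_leθ (w := w) (κ := δ * θ / G) hθ (P := P i) (Q := P j) (g := a i t - a j t)
      (G := G) (M := M) (by omega) ((Nat.sub_le _ _).trans (haG' i t))
      (fun c => hN (G * M) (P i) c (P j) hGM1 hGM2 (hPle i) (hPle j))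
    have hset : (Finset.range M).filter (fun u =>
        val a b (Function.update y t u) i = val a b (Function.update y t u) j ∨
          1 + θ < pp w (Nat.dist (val a b (Function.update y t u) i)
            (val a b (Function.update y t u) j))) =
        (Finset.range M).filter (fun u => P i + (a i t - a j t) * u = P j ∨
          1 + θ < pp w (Nat.dist (P i + (a i t - a j t) * u) (P j))) := by
      refine Finset.filter_congr fun u _ => ?_
      have h1 : val a b (Function.update y t u) i = (P i + (a i t - a j t) * u) + a j t * u := by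
        rw [val_update, Nat.sub_mul]
        have h2 : a j t * u ≤ a i t * u := Nat.mul_le_mul_right _ hlt.le
        simp only [hP]
        omega
      have h2 : val a b (Function.update y t u) j = P j + a j t * u := val_update a b y t u j
      rw [h1, h2, Nat.dist_add_add_right, Nat.add_right_cancel_iff]
    rw [hset]
    refine hline.trans ?_
    have h5 : δ * θ / G / θ * ((G * M : ℕ) : ℝ) = δ * M := by
      push_cast
      field_simp
    have h6 : (1:ℝ) ≤ δ * M := by
      have h7 : 1 / δ ≤ M := hl2.trans hM1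
      rw [div_le_iff₀ hδ0] at h7
      linarith
    rw [h5]
    linarith
  have hpair : ∀ i j : Fin r, i ≠ j →
      (((Fintype.piFinset (fun _ : Fin s => Finset.range M)).filter (fun y =>
        val a b y i = val a b y j ∨
          1 + θ < pp w (Nat.dist (val a b y i) (val a b y j)))).card : ℝ) ≤ (2 * δ) * (M:ℝ) ^ s := by
    intro i j hij
    obtain ⟨t, ht⟩ := Function.ne_iff.1 (ha i j hij)
    rcases lt_or_gt_of_ne ht with h | h
    · have h1 := hone j i t h
      have h2 : (Fintype.piFinset (fun _ : Fin s => Finset.range M)).filter (fun y =>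
          val a b y i = val a b y j ∨ 1 + θ < pp w (Nat.dist (val a b y i) (val a b y j))) =
          (Fintype.piFinset (fun _ : Fin s => Finset.range M)).filter (fun y =>
          val a b y j = val a b y i ∨ 1 + θ < pp w (Nat.dist (val a b y j) (val a b y i))) := by
        refine Finset.filter_congr fun y _ => ?_
        rw [Nat.dist_comm, eq_comm]
      rw [h2]
      exact h1
    · exact hone i j t h
  -- all pairs
  have hsub : (Fintype.piFinset (fun _ : Fin s => Finset.range M)).filter (fun y =>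
        ∃ i j, i ≠ j ∧ (val a b y i = val a b y j ∨
          1 + θ < pp w (Nat.dist (val a b y i) (val a b y j)))) ⊆
      (Finset.univ.filter (fun p : Fin r × Fin r => p.1 ≠ p.2)).biUnion (fun p =>
        (Fintype.piFinset (fun _ : Fin s => Finset.range M)).filter (fun y =>
          val a b y p.1 = val a b y p.2 ∨
            1 + θ < pp w (Nat.dist (val a b y p.1) (val a b y p.2)))) := by
    intro y hy
    obtain ⟨hy1, i, j, hij, hbad⟩ := Finset.mem_filter.1 hy
    refine Finset.mem_biUnion.2 ⟨(i, j), ?_, Finset.mem_filter.2 ⟨hy1, hbad⟩⟩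
    exact Finset.mem_filter.2 ⟨Finset.mem_univ _, hij⟩
  calc _ ≤ (((Finset.univ.filter (fun p : Fin r × Fin r => p.1 ≠ p.2)).biUnion (fun p =>
        (Fintype.piFinset (fun _ : Fin s => Finset.range M)).filter (fun y =>
          val a b y p.1 = val a b y p.2 ∨
            1 + θ < pp w (Nat.dist (val a b y p.1) (val a b y p.2))))).card : ℝ) := by
        exact_mod_cast Finset.card_le_card hsub
    _ ≤ ∑ p ∈ Finset.univ.filter (fun p : Fin r × Fin r => p.1 ≠ p.2),
        (((Fintype.piFinset (fun _ : Fin s => Finset.range M)).filter (fun y =>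
          val a b y p.1 = val a b y p.2 ∨
            1 + θ < pp w (Nat.dist (val a b y p.1) (val a b y p.2)))).card : ℝ) := by
        exact_mod_cast Finset.card_biUnion_le
    _ ≤ ∑ p ∈ Finset.univ.filter (fun p : Fin r × Fin r => p.1 ≠ p.2), (2 * δ) * (M:ℝ) ^ s :=
        Finset.sum_le_sum fun p hp => hpair p.1 p.2 (Finset.mem_filter.1 hp).2
    _ ≤ ∑ _p : Fin r × Fin r, (2 * δ) * (M:ℝ) ^ s :=
        Finset.sum_le_sum_of_subset_of_nonneg (Finset.filter_subset _ _)
          (fun _ _ _ => by positivity)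
    _ = (r:ℝ) ^ 2 * (2 * δ) * (M:ℝ) ^ s := by
        rw [Finset.sum_const, Finset.card_univ, Fintype.card_prod, Fintype.card_fin, nsmul_eq_mul]
        push_cast
        ring
    _ ≤ ε * (M:ℝ) ^ s := by
        refine mul_le_mul_of_nonneg_right ?_ (by positivity)
        rw [hδ]
        have h8 : (0:ℝ) < (r:ℝ) ^ 2 + 1 := by positivity
        rw [show (r:ℝ) ^ 2 * (2 * (ε / (2 * ((r:ℝ) ^ 2 + 1)))) =
          ε * ((r:ℝ) ^ 2 / ((r:ℝ) ^ 2 + 1)) by field_simp]
        have h9 : (r:ℝ) ^ 2 / ((r:ℝ) ^ 2 + 1) ≤ 1 := by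
          rw [div_le_one h8]
          linarith
        nlinarith

end Pool.Agent.HLG
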