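import Mathlib
import Pool.Agent.HLG.Comb

set_option autoImplicit false

open Finset

namespace Pool.Agent.HLG

open Pool.Agent.HLT

/-- mixtures of represented functions are represented -/
lemma Rep.mix {m r : ℕ} {η δ : ℝ} {Q : Type} [Fintype Q] (p : Q → ℝ) (hp : ∀ q, 0 ≤ p q)
    (hp1 : ∑ q, p q = 1) (f : Q → Finset (Fin r) → ℝ) (h : ∀ q, Rep m r η δ (f q)) :
    Rep m r η δ (fun S => ∑ q, p q * f q S) := by
  classical
  choose Ω hΩ P g hP hP1 hg hmean hcorr using h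
  have hsum : ∀ F : (q : Q) → Ω q → ℝ, ∑ x : (q : Q) × Ω q, p x.1 * P x.1 x.2 * F x.1 x.2 =
      ∑ q, p q * ∑ ω, P q ω * F q ω := by
    intro F
    rw [Fintype.sum_sigma]
    refine Finset.sum_congr rfl fun q _ => ?_
    rw [Finset.mul_sum]
    refine Finset.sum_congr rfl fun ω _ => ?_
    ring
  refine ⟨(q : Q) × Ω q, inferInstance, fun x => p x.1 * P x.1 x.2, fun i x => g x.1 i x.2,
    fun x => mul_nonneg (hp _) (hP _ _), ?_, fun i x => hg _ _ _, ?_, ?_⟩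
  · have h1 := hsum (fun _ _ => 1)
    simp only [mul_one] at h1
    rw [h1]
    simp only [hP1, mul_one]
    exact hp1
  · intro i
    rw [hsum (fun q ω => g q i ω)]
    calc 1 - η = ∑ q, p q * (1 - η) := by rw [← Finset.sum_mul, hp1, one_mul]
      _ ≤ _ := Finset.sum_le_sum fun q _ => mul_le_mul_of_nonneg_left (hmean q i) (hp q)
  · intro S hS
    rw [hsum (fun q ω => ∏ i ∈ S, g q i ω)]
    calc ∑ q, p q * ∑ ω, P q ω * ∏ i ∈ S, g q i ω - δ =
          ∑ q, p q * (∑ ω, P q ω * ∏ i ∈ S, g q i ω - δ) := by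
          simp only [mul_sub, Finset.sum_sub_distrib]
          rw [← Finset.sum_mul, hp1, one_mul]
      _ ≤ _ := Finset.sum_le_sum fun q _ => mul_le_mul_of_nonneg_left (hcorr q S hS) (hp q)

/-- changing the function by a factor near 1 -/
lemma Rep.scale {m r : ℕ} {η δ ζ : ℝ} {f f' : Finset (Fin r) → ℝ} (hζ : 0 ≤ ζ) (hζ1 : ζ ≤ 1)
    (hδ : 0 ≤ δ) (h : Rep m r η δ f) (hf' : ∀ S, 0 ≤ f' S)
    (hff : ∀ S : Finset (Fin r), S.card = m + 1 → (1 - ζ) * f S ≤ f' S) :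
    Rep m r η (δ + ζ * 4 ^ (m + 1)) f' := by
  obtain ⟨Ω, hΩ, p, g, hp, hp1, hg, hmean, hcorr⟩ := h
  refine ⟨Ω, hΩ, p, g, hp, hp1, hg, hmean, fun S hS => ?_⟩
  have h1 := hcorr S hS
  have h2 := hff S hS
  have hP4 : ∑ ω, p ω * ∏ i ∈ S, g i ω ≤ 4 ^ (m + 1) := by
    calc ∑ ω, p ω * ∏ i ∈ S, g i ω ≤ ∑ ω, p ω * 4 ^ (m + 1) := by
          refine Finset.sum_le_sum fun ω _ => mul_le_mul_of_nonneg_left ?_ (hp ω)
          calc ∏ i ∈ S, g i ω ≤ ∏ _i ∈ S, (4:ℝ) :=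
              Finset.prod_le_prod (fun i _ => (hg i ω).1) fun i _ => (hg i ω).2
            _ = 4 ^ (m + 1) := by rw [Finset.prod_const, hS]
      _ = 4 ^ (m + 1) := by rw [← Finset.sum_mul, hp1, one_mul]
  set Pv := ∑ ω, p ω * ∏ i ∈ S, g i ω with hPv
  have h4 : (0:ℝ) ≤ 4 ^ (m + 1) := by positivity
  rcases le_total (Pv - δ) 0 with h5 | h5
  · have := hf' S
    nlinarith [mul_nonneg hζ h4]
  · have h6 : (1 - ζ) * (Pv - δ) ≤ (1 - ζ) * f S :=
      mul_le_mul_of_nonneg_left h1 (by linarith)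
    have h7 : ζ * (Pv - δ) ≤ ζ * 4 ^ (m + 1) := mul_le_mul_of_nonneg_left (by linarith) hζ
    linarith

end Pool.Agent.HLG
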