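import Mathlib
import Pool.Agent.HLT.Final1
import Pool.Agent.HLT.Sing2

set_option autoImplicit false

open Finset Filter

namespace Pool.Agent.HLG

open Pool.Agent.HLT Pool.Agent.HL26 Pool.Agent.Maynard

lemma one_le_nu (E : Finset ℕ) (hE : E.Nonempty) (p : ℕ) : 1 ≤ nu E p := by
  unfold nu
  exact Finset.card_pos.mpr (hE.image _)

/-- upper bound for the singular series with one factor saved -/
theorem sing_le (w r : ℕ) (hr : 1 ≤ r) (e : Fin r → ℕ)
    (he : Function.Injective e) :
    singularSeries (Finset.image e Finset.univ) ≤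
      (1 / cW (Wp w)) ^ (r - 1) * pairs (fun x y : ℕ => pp w (Nat.dist x y) ^ r) e := by
  classical
  set E := Finset.image e Finset.univ with hE
  have hcard : E.card = r := by
    rw [hE, Finset.card_image_of_injective _ he, Finset.card_univ, Fintype.card_fin]
  have hne : E.Nonempty := by
    rw [← Finset.card_pos, hcard]; omega
  have h := (multipliable_loc E).hasProd
  rw [← singularSeries_eq] at h
  unfold HasProd at h
  refine le_of_tendsto h ?_
  rw [SummationFilter.unconditional_filter]
  filter_upwards [Filter.eventually_ge_atTop ((PPy w).preimage (fun p : Nat.Primes => (p : ℕ)) (fun a _ b _ hab => Subtype.ext hab))] with s hs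
  obtain ⟨T, hT, hTp, heq⟩ := exists_tail E w s hs
  rw [heq]
  have h1 : SP (PPy w) E ≤ (1 / cW (Wp w)) ^ (r - 1) := by
    rw [inv_cW_eq, ← Finset.prod_pow, SP_eq_prod_loc]
    refine Finset.prod_le_prod (fun p hp => loc_nonneg E p (PPy_prime w p hp)) fun p hp => ?_
    have h2 := loc_le E hne p (PPy_prime w p hp)
    rwa [hcard] at h2
  have h2 := tail_le_pairs w r hr e he T hT hTp
  have h3 : 0 ≤ SP (PPy w) E := SP_nonneg _ (PPy_prime w) E
  have h4 : 0 ≤ ∏ p ∈ T, loc E p := Finset.prod_nonneg fun p hp => loc_nonneg E p (hTp p hp)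
  exact mul_le_mul h1 h2 h4 (h3.trans h1)

lemma pairs_le (w r : ℕ) (c : ℝ) (hc : 1 ≤ c) (e : Fin r → ℕ)
    (h : ∀ i j, i ≠ j → pp w (Nat.dist (e i) (e j)) ≤ c) :
    pairs (fun x y : ℕ => pp w (Nat.dist x y) ^ r) e ≤ c ^ (r * r * r) := by
  unfold pairs
  have h1 : ∀ i : Fin r, ∏ j ∈ univ.filter (fun j => i < j), pp w (Nat.dist (e i) (e j)) ^ r ≤
      c ^ (r * r) := by
    intro i
    have h0 : ∀ j, 0 ≤ pp w (Nat.dist (e i) (e j)) := fun j => by
      have := one_le_pp w (Nat.dist (e i) (e j)); linarith
    calc ∏ j ∈ univ.filter (fun j => i < j), pp w (Nat.dist (e i) (e j)) ^ r ≤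
        ∏ j ∈ univ.filter (fun j => i < j), c ^ r := by
          apply Finset.prod_le_prod
          · intro j _
            exact pow_nonneg (h0 j) _
          · intro j hj
            rw [Finset.mem_filter] at hj
            exact pow_le_pow_left₀ (h0 j) (h i j hj.2.ne) _
      _ = (c ^ r) ^ (univ.filter (fun j : Fin r => i < j)).card := by rw [Finset.prod_const]
      _ ≤ (c ^ r) ^ r := by
          apply pow_le_pow_right₀
          · exact one_le_pow₀ hc
          · exact (Finset.card_le_univ _).trans (by rw [Fintype.card_fin])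
      _ = _ := by rw [← pow_mul]
  calc _ ≤ ∏ i : Fin r, c ^ (r * r) := by
        apply Finset.prod_le_prod
        · intro i _
          apply Finset.prod_nonneg
          intro j _
          have := one_le_pp w (Nat.dist (e i) (e j))
          exact pow_nonneg (by linarith) _
        · intro i _
          exact h1 i
    _ = _ := by
        rw [Finset.prod_const, Finset.card_univ, Fintype.card_fin, ← pow_mul]

/-- multiplication by `Wp w` does not change `pp w` -/
lemma pp_mul_Wp (w h : ℕ) (hh : h ≠ 0) : pp w (Wp w * h) = pp w h := by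
  unfold pp
  congr 1
  ext p
  rw [Finset.mem_filter, Finset.mem_filter, Nat.primeFactors_mul (f1_Wp_pos w).ne' hh,
    Finset.mem_union]
  constructor
  · rintro ⟨h1 | h1, h2⟩
    · exfalso
      have hp := Nat.prime_of_mem_primeFactors h1
      have h3 := Nat.dvd_of_mem_primeFactors h1
      unfold Wp at h3
      obtain ⟨q, hq, hpq⟩ := (hp.prime.dvd_finsetProd_iff _).mp h3
      have hq' := PPy_prime w q hq
      have h4 : p = q := (Nat.prime_dvd_prime_iff_eq hp hq').mp hpq
      have h5 : q ≤ w := by
        unfold PPy at hq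
        simp only [Finset.mem_filter, Finset.mem_range] at hq
        omega
      omega
    · exact ⟨h1, h2⟩
  · rintro ⟨h1, h2⟩
    exact ⟨Or.inr h1, h2⟩

end Pool.Agent.HLG
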