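import Mathlib
import Pool.Agent.HLG.Class
import Pool.Agent.HLG.Bound
import Pool.Agent.HLG.Mix
import Pool.Agent.HLG.Sing
import Pool.Agent.HLG.Count
import Pool.Agent.HLG.Blocks
import Pool.Agent.HL26.Degenerate

set_option autoImplicit false

open Finset Filter

namespace Pool.Agent.HLG

open Pool.Agent.HLT Pool.Agent.HL26 Pool.Agent.Maynard Pool.Agent.HLF

/-- the number of prime tuples with differences `E` up to `x`, divided by the conjectured number -/
noncomputable def ratio (m : ℕ) (x : ℝ) (E : Finset ℕ) : ℝ :=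
  (tupleCount x (translate0 E) : ℝ) /
    (singularSeries (translate0 E) * (x / (Real.log x) ^ (m + 1)))

lemma ncnt_nonneg (N w a : ℕ) {k : ℕ} (v : Fin k → ℕ) : 0 ≤ ncnt N w a v := by
  unfold ncnt
  have h1 : 0 ≤ cW (Wp w) * Real.log N :=
    mul_nonneg (f1_cW_pos w).le (Real.log_natCast_nonneg N)
  positivity

lemma count_eq_ncnt (N w a : ℕ) {k : ℕ} (v : Fin k → ℕ) (hX : 0 < (XS N w a).card)
    (hlog : 0 < Real.log (N:ℝ)) :
    (((XS N w a).filter (fun n => ∀ i, (n + v i).Prime)).card : ℝ) =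
      ncnt N w a v * ((XS N w a).card : ℝ) / (cW (Wp w) * Real.log N) ^ k := by
  unfold ncnt
  have h1 := f1_cW_pos w
  have h2 : (0:ℝ) < ((XS N w a).card : ℝ) := by exact_mod_cast hX
  field_simp

/-- the elements of the image are multiples of `Wp w`, so small sets are admissible -/
lemma adm_lin {r s : ℕ} (m w : ℕ) (hw : m + 1 ≤ w) (a : Fin r → Fin s → ℕ) (u : Fin s → ℕ)
    (S : Finset (Fin r)) (hS : S.card = m + 1) (p : ℕ) (hp : p.Prime) :
    nu (S.image (lin (Wp w) a u)) p < p := by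
  classical
  by_cases hpw : p ≤ w
  · have h1 : nu (S.image (lin (Wp w) a u)) p ≤ 1 := by
      unfold nu
      rw [Finset.card_le_one]
      intro x hx y hy
      have h3 : ∀ z ∈ (S.image (lin (Wp w) a u)).image (fun e : ℕ => (e : ZMod p)),
          z = 0 := by
        intro z hz
        rw [Finset.mem_image] at hz
        obtain ⟨e, he, rfl⟩ := hz
        rw [Finset.mem_image] at he
        obtain ⟨i, _, rfl⟩ := he
        rw [ZMod.natCast_eq_zero_iff]
        unfold lin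
        refine Dvd.dvd.mul_right ?_ _
        unfold Wp
        apply Finset.dvd_prod_of_mem
        unfold PPy
        simp only [Finset.mem_filter, Finset.mem_range]
        exact ⟨by omega, hp⟩
      rw [h3 x hx, h3 y hy]
    exact lt_of_le_of_lt h1 hp.one_lt
  · push Not at hpw
    have h1 : nu (S.image (lin (Wp w) a u)) p ≤ m + 1 := by
      unfold nu
      refine Finset.card_image_le.trans (Finset.card_image_le.trans ?_)
      rw [hS]
    omega

lemma image_oe_lin {m r s : ℕ} (hmr : m + 1 ≤ r) (W : ℕ) (a : Fin r → Fin s → ℕ)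
    (u : Fin s → ℕ) (S : Finset (Fin r)) (hS : S.card = m + 1) :
    (univ : Finset (Fin (m + 1))).image (fun i => lin W a u (oe m r hmr S i)) =
      S.image (lin W a u) := by
  classical
  conv_rhs => rw [← image_oe hmr S hS]
  rw [Finset.image_image]
  rfl

/-- the normalised numbers of prime tuples are represented -/
theorem rep_ratio (m r s : ℕ) (hmr : m + 1 ≤ r) (η δ ζ θ : ℝ) (hδ : 0 ≤ δ) (hζ : 0 ≤ ζ)
    (hζ1 : ζ < 1) (hθ : 0 ≤ θ) (a : Fin r → Fin s → ℕ) (w : ℕ) (hw : m + 1 ≤ w) (x : ℝ)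
    (hx : 0 < x) (hlx : 1 ≤ Real.log x) (u : Fin s → ℕ)
    (hinj : Function.Injective (lin (Wp w) a u))
    (hpp : ∀ i j, i ≠ j → pp w (Nat.dist (lin (Wp w) a u i) (lin (Wp w) a u j)) ≤ 1 + θ)
    (Nf : ℕ → ℕ) (B : ℝ) (G : Finset (ℕ × ℕ)) (sh : ℕ × ℕ → ℕ)
    (hG1 : ∀ q ∈ G, q.2 < Wp w)
    (hsh : ∀ q ∈ G, ∀ i, ((Wp w * sh q + lin (Wp w) a u i : ℕ) : ℝ) ≤ B)
    (hN1 : ∀ q ∈ G, 0 < Real.log (Nf q.1 : ℝ) ∧ Real.log (Nf q.1 : ℝ) ≤ Real.log x ∧
      2 * (Nf q.1 : ℝ) + B ≤ x ∧ (Wp w : ℝ) < Nf q.1)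
    (hN2 : ∀ q ∈ G, ∀ q' ∈ G, q.1 < q'.1 → 2 * (Nf q'.1 : ℝ) + B ≤ (Nf q.1 : ℝ))
    (hrep : ∀ q ∈ G, Rep m r η δ (fun I => ncnt (Nf q.1) w q.2
      (fun i => Wp w * sh q + lin (Wp w) a u (oe m r hmr I i))))
    (hweight : 1 - ζ ≤ ∑ q ∈ G, ((Nf q.1 : ℝ) / Wp w - 1) /
      (cW (Wp w) * x * (1 + θ) ^ ((m + 1) * (m + 1) * (m + 1)))) :
    Rep m r η (δ + ζ * 4 ^ (m + 1)) (fun S => ratio m x (S.image (lin (Wp w) a u))) := by
  classical
  have hWnat := f1_Wp_pos w
  have hW : (0:ℝ) < (Wp w : ℝ) := by exact_mod_cast hWnat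
  have hc := f1_cW_pos w
  have hlx0 : 0 < Real.log x := by linarith
  set c3 : ℝ := (1 + θ) ^ ((m + 1) * (m + 1) * (m + 1)) with hc3
  have hc3pos : 0 < c3 := by positivity
  let ω : {q // q ∈ G} → ℝ := fun q => ((Nf q.1.1 : ℝ) / Wp w - 1) / (cW (Wp w) * x * c3)
  have hω : ∀ q, 0 ≤ ω q := by
    intro q
    have h1 := (hN1 q.1 q.2).2.2.2
    have h2 : (1:ℝ) ≤ (Nf q.1.1 : ℝ) / Wp w := by rw [le_div_iff₀ hW]; linarith
    exact div_nonneg (by linarith) (by positivity)
  set Ω : ℝ := ∑ q, ω q with hΩ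
  have hΩ1 : 1 - ζ ≤ Ω := by
    rw [hΩ]
    refine hweight.trans (le_of_eq ?_)
    exact (Finset.sum_coe_sort G (fun q => ((Nf q.1 : ℝ) / Wp w - 1) /
      (cW (Wp w) * x * c3))).symm
  have hΩ0 : 0 < Ω := by linarith
  let f : {q // q ∈ G} → Finset (Fin r) → ℝ := fun q I => ncnt (Nf q.1.1) w q.1.2
      (fun i => Wp w * sh q.1 + lin (Wp w) a u (oe m r hmr I i))
  have hf0 : ∀ q I, 0 ≤ f q I := fun q I => ncnt_nonneg _ _ _ _
  have hmix := Rep.mix (m := m) (r := r) (η := η) (δ := δ) (fun q => ω q / Ω)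
    (fun q => div_nonneg (hω q) hΩ0.le)
    (by rw [← Finset.sum_div]; exact div_self hΩ0.ne') f (fun q => hrep q.1 q.2)
  refine Rep.scale hζ hζ1.le hδ hmix ?_ ?_
  · intro S
    unfold ratio
    have h1 : 0 ≤ singularSeries (translate0 (S.image (lin (Wp w) a u))) :=
      singularSeries_nonneg _
    positivity
  intro S hS
  -- the set of shifts
  set E := S.image (lin (Wp w) a u) with hE
  have hEne : E.Nonempty := by
    rw [hE]
    apply Finset.Nonempty.image
    rw [← Finset.card_pos, hS]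
    omega
  have himg : (univ : Finset (Fin (m + 1))).image
      (fun i => lin (Wp w) a u (oe m r hmr S i)) = E := image_oe_lin hmr (Wp w) a u S hS
  have hinjS : Function.Injective (fun i => lin (Wp w) a u (oe m r hmr S i)) :=
    hinj.comp (oe m r hmr S).injective
  -- lower bound for the count
  have hcount := count_blocks (ι := {q // q ∈ G}) w x E hEne (fun q => Nf q.1.1)
    (fun q => q.1.2) (fun q => Wp w * sh q.1)
    (by
      intro q
      have h1 : sInf (E : Set ℕ) ∈ E := Nat.sInf_mem (s := (E : Set ℕ)) hEne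
      obtain ⟨i, _, hi⟩ := Finset.mem_image.mp h1
      have h2 := hsh q.1 q.2 i
      rw [hi] at h2
      have h3 := (hN1 q.1 q.2).2.2.1
      push_cast at h2 ⊢
      linarith)
    (by
      intro q q' hqq n hn n' hn'
      unfold XS at hn hn'
      rw [Finset.mem_filter, Finset.mem_Ioc] at hn hn'
      have hshb : ∀ q : {q // q ∈ G}, ((Wp w * sh q.1 : ℕ) : ℝ) ≤ B := by
        intro q
        have h2 := hsh q.1 q.2 ⟨0, by omega⟩
        push_cast at h2 ⊢
        have : (0:ℝ) ≤ (lin (Wp w) a u ⟨0, by omega⟩ : ℝ) := Nat.cast_nonneg _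
        linarith
      intro heq
      have heqR : (n:ℝ) + ((Wp w * sh q.1 : ℕ) : ℝ) = n' + ((Wp w * sh q'.1 : ℕ) : ℝ) := by
        exact_mod_cast heq
      have hn1 : (Nf q.1.1 : ℝ) < n := by exact_mod_cast hn.1.1
      have hn2 : (n:ℝ) ≤ 2 * Nf q.1.1 := by exact_mod_cast hn.1.2
      have hn1' : (Nf q'.1.1 : ℝ) < n' := by exact_mod_cast hn'.1.1
      have hn2' : (n':ℝ) ≤ 2 * Nf q'.1.1 := by exact_mod_cast hn'.1.2
      have h0 : (0:ℝ) ≤ ((Wp w * sh q.1 : ℕ) : ℝ) := Nat.cast_nonneg _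
      have h0' : (0:ℝ) ≤ ((Wp w * sh q'.1 : ℕ) : ℝ) := Nat.cast_nonneg _
      rcases lt_trichotomy q.1.1 q'.1.1 with h | h | h
      · have h1 := hN2 q.1 q.2 q'.1 q'.2 h
        have h2 := hshb q'
        linarith
      · have h1 : n ≡ n' [MOD Wp w] := by
          have e1 : n + Wp w * sh q.1 ≡ n [MOD Wp w] := by
            unfold Nat.ModEq
            rw [Nat.add_mul_mod_self_left]
          have e2 : n' + Wp w * sh q'.1 ≡ n' [MOD Wp w] := by
            unfold Nat.ModEq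
            rw [Nat.add_mul_mod_self_left]
          rw [heq] at e1
          exact e1.symm.trans e2
        have h2 : q.1.2 ≡ q'.1.2 [MOD Wp w] := (hn.2.symm.trans h1).trans hn'.2
        have h3 : q.1.2 = q'.1.2 := Nat.ModEq.eq_of_lt_of_lt h2 (hG1 q.1 q.2) (hG1 q'.1 q'.2)
        exact hqq (Subtype.ext (Prod.ext h h3))
      · have h1 := hN2 q'.1 q'.2 q.1 q.2 h
        have h2 := hshb q
        linarith)
  have hXpos : ∀ q : {q // q ∈ G}, (0:ℝ) < (Nf q.1.1 : ℝ) / Wp w - 1 := by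
    intro q
    have h1 := (hN1 q.1 q.2).2.2.2
    have h2 : (1:ℝ) < (Nf q.1.1 : ℝ) / Wp w := by rw [lt_div_iff₀ hW]; linarith
    linarith
  have hXS : ∀ q : {q // q ∈ G}, (Nf q.1.1 : ℝ) / Wp w - 1 ≤
      ((XS (Nf q.1.1) w q.1.2).card : ℝ) := by
    intro q
    have h1 := (abs_le.mp (card_XS w (Nf q.1.1) q.1.2)).1
    linarith
  have hterm : ∀ q : {q // q ∈ G}, ((Nf q.1.1 : ℝ) / Wp w - 1) / (cW (Wp w) * Real.log x) ^ (m + 1)
      * f q S ≤ (((XS (Nf q.1.1) w q.1.2).filter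
        (fun n => ∀ e ∈ E, (n + (Wp w * sh q.1 + e)).Prime)).card : ℝ) := by
    intro q
    have h1 : (XS (Nf q.1.1) w q.1.2).filter
        (fun n => ∀ e ∈ E, (n + (Wp w * sh q.1 + e)).Prime) =
        (XS (Nf q.1.1) w q.1.2).filter
        (fun n => ∀ i, (n + (Wp w * sh q.1 + lin (Wp w) a u (oe m r hmr S i))).Prime) := by
      refine Finset.filter_congr fun n _ => ?_
      rw [← himg]
      constructor
      · intro h i
        exact h _ (Finset.mem_image_of_mem _ (Finset.mem_univ i))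
      · intro h e he
        obtain ⟨i, _, rfl⟩ := Finset.mem_image.mp he
        exact h i
    have hlogq := hN1 q.1 q.2
    have hXc : 0 < (XS (Nf q.1.1) w q.1.2).card := by
      have : (0:ℝ) < ((XS (Nf q.1.1) w q.1.2).card : ℝ) := lt_of_lt_of_le (hXpos q) (hXS q)
      exact_mod_cast this
    rw [h1, count_eq_ncnt _ _ _ _ hXc hlogq.1]
    have h3 : (cW (Wp w) * Real.log (Nf q.1.1 : ℝ)) ^ (m + 1) ≤
        (cW (Wp w) * Real.log x) ^ (m + 1) :=
      pow_le_pow_left₀ (mul_nonneg hc.le hlogq.1.le)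
        (mul_le_mul_of_nonneg_left hlogq.2.1 hc.le) _
    have h4 : 0 < (cW (Wp w) * Real.log (Nf q.1.1 : ℝ)) ^ (m + 1) :=
      pow_pos (mul_pos hc hlogq.1) _
    calc ((Nf q.1.1 : ℝ) / Wp w - 1) / (cW (Wp w) * Real.log x) ^ (m + 1) * f q S =
          f q S * ((Nf q.1.1 : ℝ) / Wp w - 1) / (cW (Wp w) * Real.log x) ^ (m + 1) := by ring
      _ ≤ f q S * ((XS (Nf q.1.1) w q.1.2).card : ℝ) /
          (cW (Wp w) * Real.log (Nf q.1.1 : ℝ)) ^ (m + 1) := by
          apply div_le_div₀ (by have := hf0 q S; positivity) _ h4 h3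
          exact mul_le_mul_of_nonneg_left (hXS q) (hf0 q S)
      _ = _ := rfl
  have hcount2 : ∑ q : {q // q ∈ G}, ((Nf q.1.1 : ℝ) / Wp w - 1) /
      (cW (Wp w) * Real.log x) ^ (m + 1) * f q S ≤ (tupleCount x (translate0 E) : ℝ) :=
    (Finset.sum_le_sum fun q _ => hterm q).trans hcount
  -- the singular series
  have hSpos : 0 < singularSeries E :=
    singularSeries_pos_of E (fun p hp => adm_lin m w hw a u S hS p hp)
  have hSle : singularSeries E ≤ (1 / cW (Wp w)) ^ m * c3 := by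
    have h1 := sing_le w (m + 1) (by omega) (fun i => lin (Wp w) a u (oe m r hmr S i)) hinjS
    rw [himg] at h1
    refine h1.trans ?_
    rw [Nat.add_sub_cancel]
    apply mul_le_mul_of_nonneg_left _ (by positivity)
    apply pairs_le w (m + 1) (1 + θ) (by linarith)
    intro i j hij
    exact hpp _ _ (fun h => hij ((oe m r hmr S).injective h))
  show (1 - ζ) * ∑ q, ω q / Ω * f q S ≤ ratio m x E
  unfold ratio
  rw [singularSeries_translate0 E hEne]
  have hxl : 0 < x / (Real.log x) ^ (m + 1) := by positivity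
  rw [le_div_iff₀ (by positivity)]
  refine le_trans ?_ hcount2
  have h5 : ∑ q, ω q / Ω * f q S = (∑ q, ω q * f q S) / Ω := by
    rw [Finset.sum_div]
    exact Finset.sum_congr rfl fun q _ => by ring
  have h6 : 0 ≤ ∑ q, ω q * f q S := Finset.sum_nonneg fun q _ => mul_nonneg (hω q) (hf0 q S)
  have h7 : (1 - ζ) * ∑ q, ω q / Ω * f q S ≤ ∑ q, ω q * f q S := by
    rw [h5, ← mul_div_assoc, div_le_iff₀ hΩ0, mul_comm]
    exact mul_le_mul_of_nonneg_left hΩ1 h6
  calc ((1 - ζ) * ∑ q, ω q / Ω * f q S) *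
        (singularSeries E * (x / (Real.log x) ^ (m + 1))) ≤
        (∑ q, ω q * f q S) * (((1 / cW (Wp w)) ^ m * c3) * (x / (Real.log x) ^ (m + 1))) := by
        apply mul_le_mul h7 _ (by positivity) h6
        exact mul_le_mul_of_nonneg_right hSle hxl.le
    _ = ∑ q : {q // q ∈ G}, ((Nf q.1.1 : ℝ) / Wp w - 1) /
      (cW (Wp w) * Real.log x) ^ (m + 1) * f q S := by
        rw [Finset.sum_mul]
        refine Finset.sum_congr rfl fun q _ => ?_
        show ((Nf q.1.1 : ℝ) / Wp w - 1) / (cW (Wp w) * x * c3) * f q S *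
          (((1 / cW (Wp w)) ^ m * c3) * (x / (Real.log x) ^ (m + 1))) = _
        have e1 : (1 / cW (Wp w)) ^ m * cW (Wp w) ^ m = 1 := by
          rw [← mul_pow, one_div, inv_mul_cancel₀ hc.ne', one_pow]
        rw [mul_pow, pow_succ (cW (Wp w))]
        field_simp
        rw [mul_assoc, e1, mul_one]

end Pool.Agent.HLG
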