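import Mathlib
import Pool.Agent.HLF.Main2
import Pool.Agent.HLG.RatioRep
import Pool.Agent.HLG.Irr

set_option autoImplicit false

open Finset Filter

namespace Pool.Agent.HLG

open Pool.Agent.HLT Pool.Agent.HL26 Pool.Agent.Maynard Pool.Agent.HLF

open Classical in
lemma markov {α β : Type} [Fintype α] (R : Finset β) (hR : R.Nonempty) (F : β → Finset α)
    (B ζ : ℝ) (hF : ∀ b ∈ R, ((F b).card : ℝ) ≤ B) :
    ζ * (((univ : Finset α).filter (fun u => ζ * (R.card : ℝ) <
      ((R.filter (fun b => u ∈ F b)).card : ℝ))).card : ℝ) ≤ B := by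
  set VB := (univ : Finset α).filter (fun u => ζ * (R.card : ℝ) <
      ((R.filter (fun b => u ∈ F b)).card : ℝ)) with hVB
  have hRpos : (0:ℝ) < R.card := by exact_mod_cast hR.card_pos
  have h1 : ζ * (R.card : ℝ) * (VB.card : ℝ) ≤
      ∑ u ∈ VB, ((R.filter (fun b => u ∈ F b)).card : ℝ) := by
    calc ζ * (R.card : ℝ) * (VB.card : ℝ) = ∑ _u ∈ VB, ζ * (R.card : ℝ) := by
          rw [Finset.sum_const, nsmul_eq_mul]; ring
      _ ≤ _ := Finset.sum_le_sum fun u hu => ((Finset.mem_filter.mp hu).2).le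
  have h2 : ∑ u ∈ VB, ((R.filter (fun b => u ∈ F b)).card : ℝ) ≤
      ∑ u : α, ((R.filter (fun b => u ∈ F b)).card : ℝ) :=
    Finset.sum_le_sum_of_subset_of_nonneg (Finset.subset_univ _) fun _ _ _ => Nat.cast_nonneg _
  have h3 : ∑ u : α, ((R.filter (fun b => u ∈ F b)).card : ℝ) = ∑ b ∈ R, ((F b).card : ℝ) := by
    have h4 : ∀ u : α, ((R.filter (fun b => u ∈ F b)).card : ℝ) =
        ∑ b ∈ R, (if u ∈ F b then (1:ℝ) else 0) := by
      intro u
      rw [Finset.card_filter]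
      push_cast
      rfl
    rw [Finset.sum_congr rfl fun u _ => h4 u, Finset.sum_comm]
    refine Finset.sum_congr rfl fun b _ => ?_
    rw [Finset.sum_ite_mem, Finset.univ_inter, Finset.sum_const, nsmul_eq_mul, mul_one]
  have h4 : ∑ b ∈ R, ((F b).card : ℝ) ≤ R.card * B := by
    rw [← nsmul_eq_mul]
    exact Finset.sum_le_card_nsmul _ _ _ hF
  have h5 : (R.card : ℝ) * (ζ * (VB.card : ℝ)) ≤ R.card * B := by
    calc (R.card : ℝ) * (ζ * (VB.card : ℝ)) = ζ * (R.card : ℝ) * (VB.card : ℝ) := by ring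
      _ ≤ R.card * B := by rw [h3] at h2; linarith
  exact le_of_mul_le_mul_left h5 hRpos

/-- the `r` forms of each of the `k` systems take distinct values at `u`, and the average over the
`(m+1)`-subsets of the product of the normalised numbers of prime tuples is large -/
def GoodPt {k r s : ℕ} (m P : ℕ) (a : Fin k → Fin r → Fin s → ℕ) (ε x : ℝ) (u : Fin s → ℕ) :
    Prop :=
  (∀ l, Function.Injective (lin P (a l) u)) ∧
    (∏ j ∈ Finset.range (m + 1), max ((r:ℝ) - 4 ^ k * (j:ℝ)) 0) / ((m + 1).factorial : ℝ) - ε ≤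
      ∑ S ∈ (univ : Finset (Fin r)).powersetCard (m + 1),
        ∏ l, ratio m x (S.image (lin P (a l) u))

lemma choose_eta (k m r : ℕ) (ε : ℝ) (hε : 0 < ε) : ∃ η : ℝ, 0 < η ∧ η ≤ 1 ∧
    phi (4 ^ k) (m + 1) r / ((m + 1).factorial : ℝ) - ε ≤
      phi (4 ^ k) (m + 1) (r * (1 - η) ^ k) / ((m + 1).factorial : ℝ) := by
  have hcont : Continuous (fun t : ℝ => phi (4 ^ k) (m + 1) (r * (1 - t) ^ k) /
      ((m + 1).factorial : ℝ)) := by
    apply Continuous.div_const
    exact (phi_cont _ _).comp (by fun_prop)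
  have h1 := (hcont.tendsto 0).eventually (lt_mem_nhds
    (show phi (4 ^ k) (m + 1) (r * (1 - 0) ^ k) / ((m + 1).factorial : ℝ) - ε <
      phi (4 ^ k) (m + 1) (r * (1 - 0) ^ k) / ((m + 1).factorial : ℝ) by linarith))
  rw [Metric.eventually_nhds_iff] at h1
  obtain ⟨ρ, hρ, h3⟩ := h1
  refine ⟨min (ρ / 2) 1, lt_min (by positivity) one_pos, min_le_right _ _, ?_⟩
  have h4 := @h3 (min (ρ / 2) 1) (by
    rw [Real.dist_eq, sub_zero, abs_of_pos (lt_min (by positivity) one_pos)]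
    exact lt_of_le_of_lt (min_le_left _ _) (by linarith))
  rw [sub_zero, one_pow, mul_one] at h4
  exact h4.le

lemma choose_theta (n : ℕ) (ζ : ℝ) (hζ : 0 < ζ) : ∃ θ : ℝ, 0 < θ ∧ (1 + θ) ^ n ≤ 1 + ζ := by
  have hcont : Continuous (fun t : ℝ => (1 + t) ^ n) := by fun_prop
  have h1 := (hcont.tendsto 0).eventually (gt_mem_nhds
    (show ((1:ℝ) + 0) ^ n < 1 + ζ by rw [add_zero, one_pow]; linarith))
  rw [Metric.eventually_nhds_iff] at h1
  obtain ⟨ρ, hρ, h3⟩ := h1
  refine ⟨ρ / 2, by positivity, ?_⟩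
  have h4 := @h3 (ρ / 2) (by
    rw [Real.dist_eq, sub_zero, abs_of_pos (by positivity)]
    linarith)
  exact h4.le

open Classical in
/-- the sharp theorem for `k` systems of `r` linear forms -/
theorem sharp (m k r s : ℕ) (hm : 1 ≤ m) (hmr : m + 1 ≤ r)
    (a : Fin k → Fin r → Fin s → ℕ)
    (ha : ∀ l, ∀ I : Fin (m + 1) ↪ Fin r,
      AffineIndependent ℚ (fun j : Fin (m + 1) => (fun t : Fin s => (a l (I j) t : ℚ))))
    (ε : ℝ) (hε : 0 < ε) : ∃ (P : ℕ) (K : ℝ), 0 < P ∧
    ∀ A : ℕ, ∃ X : ℝ, ∀ x : ℝ, X ≤ x → ∀ H : ℕ,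
    K * Real.log x ≤ H → (H:ℝ) ≤ (Real.log x) ^ A →
    (((Fintype.piFinset (fun _ : Fin s => Finset.Icc 1 H)).filter
      (fun u => ¬ GoodPt m P a ε x u)).card : ℝ) ≤ ε * (H:ℝ) ^ s := by
  have hr : 0 < r := by omega
  have ha' : ∀ l i j, i ≠ j → a l i ≠ a l j := fun l => rows_ne' hm hmr (a l) (ha l)
  set Ca : ℕ := ∑ l, ∑ i, ∑ t, a l i t with hCadef
  have hCa : ∀ l i, ∑ t, a l i t ≤ Ca := fun l i =>
    (Finset.single_le_sum (f := fun i => ∑ t, a l i t) (fun _ _ => Nat.zero_le _)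
      (Finset.mem_univ i)).trans (Finset.single_le_sum (f := fun l => ∑ i, ∑ t, a l i t)
        (fun _ _ => Nat.zero_le _) (Finset.mem_univ l))
  -- constants
  obtain ⟨F, hFdef⟩ : ∃ F : ℝ, F = (2:ℝ) ^ r * (k * (4 ^ (m + 1)) ^ k) := ⟨_, rfl⟩
  have hF0 : 0 ≤ F := by rw [hFdef]; positivity
  obtain ⟨η, hη, hη1, hphi⟩ := choose_eta k m r (ε / 2) (by positivity)
  obtain ⟨δt, hδt⟩ : ∃ δt : ℝ, δt = ε / (2 * (F + 1)) := ⟨_, rfl⟩
  have hδt0 : 0 < δt := by rw [hδt]; positivity
  have hFδ : F * δt ≤ ε / 2 := by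
    have : F * δt = ε / 2 * (F / (F + 1)) := by rw [hδt]; field_simp
    rw [this]
    have h2 : F / (F + 1) ≤ 1 := by rw [div_le_one (by positivity)]; linarith
    nlinarith
  obtain ⟨ζ, hζdef⟩ : ∃ ζ : ℝ, ζ = min (1 / 2) (δt / (2 * 4 ^ (m + 1))) := ⟨_, rfl⟩
  have hζ : 0 < ζ := by rw [hζdef]; exact lt_min (by norm_num) (by positivity)
  have hζh : ζ ≤ 1 / 2 := by rw [hζdef]; exact min_le_left _ _
  have hζ4 : ζ * 4 ^ (m + 1) ≤ δt / 2 := by
    have h1 : ζ ≤ δt / (2 * 4 ^ (m + 1)) := by rw [hζdef]; exact min_le_right _ _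
    rw [le_div_iff₀ (by positivity)] at h1
    linarith
  obtain ⟨θ, hθ, hθ1⟩ := choose_theta ((m + 1) * (m + 1) * (m + 1)) (ζ / 4) (by positivity)
  obtain ⟨J, lam, hlam, hJ, hblocks⟩ := blocks (ζ / 4) (by positivity) (by linarith)
  obtain ⟨ε1, hε1def⟩ : ∃ ε1 : ℝ, ε1 = ε / (2 ^ (s + 1) * (k + 1)) := ⟨_, rfl⟩
  have hε1 : 0 < ε1 := by rw [hε1def]; positivity
  obtain ⟨ε', hε'def⟩ : ∃ ε' : ℝ, ε' = (ζ / 4) * (ε1 / (J + 1)) := ⟨_, rfl⟩
  have hε' : 0 < ε' := by rw [hε'def]; positivity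
  obtain ⟨w0, hw0⟩ := class_tuplesR m r hm hmr η (δt / 2) (2 * (2 * (1 + (Ca:ℝ))) ^ (m + 1)) ε'
    hη hη1 (by positivity) (by positivity) hε'
  choose w2 hw2 using fun l => irregularθ (a l) (ha' l) θ ε1 hθ hε1
  set w := max (max w0 (m + 1)) (∑ l, w2 l) with hw
  have hw0w : w0 ≤ w := (le_max_left _ _).trans (le_max_left _ _)
  have hmw : m + 1 ≤ w := (le_max_right _ _).trans (le_max_left _ _)
  have hw2w : ∀ l, w2 l ≤ w := fun l =>
    (Finset.single_le_sum (f := w2) (fun _ _ => Nat.zero_le _) (Finset.mem_univ l)).trans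
      (le_max_right _ _)
  obtain ⟨K1, hK1⟩ := hw0 w hw0w
  have hWnat := f1_Wp_pos w
  have hWpos : (0:ℝ) < (Wp w : ℝ) := by exact_mod_cast hWnat
  have hcpos := f1_cW_pos w
  refine ⟨Wp w, max |K1| 1, hWnat, fun A => ?_⟩
  have hirr : ∀ᶠ N : ℕ in atTop, ∀ l, ∀ (M : ℕ) (b : Fin r → ℕ),
      Real.log N ≤ M → (M:ℝ) ≤ (Real.log N) ^ (A + 2) →
      (∀ i, (b i : ℝ) ≤ (Real.log N) ^ (A + 2)) →
      (((Fintype.piFinset (fun _ : Fin s => Finset.range M)).filter (fun y =>
        ∃ i j, i ≠ j ∧ (val (a l) b y i = val (a l) b y j ∨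
          1 + θ < pp w (Nat.dist (val (a l) b y i) (val (a l) b y j))))).card : ℝ) ≤
        ε1 * (M:ℝ) ^ s := by
    rw [Filter.eventually_all]
    exact fun l => hw2 l w (hw2w l) (A + 2)
  obtain ⟨X, hX⟩ := hblocks _ (((hK1 (A + 2)).and hirr).and
    ((eventually_gt_atTop (Wp w)))) (A + 1) (Wp w) (2 * (r:ℝ) * r + 2 * (1 + Ca) * Wp w + 1)
      hWpos.le
  refine ⟨X, fun x hx H hHlow hHup => ?_⟩
  obtain ⟨hx0, hbig, hlog1, hNj, hNjj, hsum⟩ := hX x hx
  have hCa0 : (0:ℝ) ≤ (Ca:ℝ) := Nat.cast_nonneg _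
  have hlogx : 0 < Real.log x := by linarith
  have hHlog : Real.log x ≤ H := by
    refine le_trans ?_ hHlow
    exact le_mul_of_one_le_left hlogx.le (le_max_right _ _)
  have hr0 : (0:ℝ) ≤ (r:ℝ) := Nat.cast_nonneg _
  have hH1R : (1:ℝ) ≤ H := by linarith
  have hH1 : 1 ≤ H := by exact_mod_cast hH1R
  set U := H + 1 with hU
  have hUR : (U:ℝ) = H + 1 := by rw [hU]; push_cast; ring
  have hU2 : (U:ℝ) ≤ 2 * H := by rw [hUR]; linarith
  have hU0 : 0 < U := Nat.succ_pos _
  have hUr : 2 * (r * r) ≤ U := by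
    have h1 : (2 * (r * r) : ℝ) ≤ U := by
      have h2 : 0 ≤ 2 * (1 + (Ca:ℝ)) * Wp w := by positivity
      rw [hUR]
      nlinarith
    exact_mod_cast h1
  -- the length
  have hlenx : ((Wp w * ((1 + Ca) * U) : ℕ) : ℝ) ≤ (Real.log x) ^ (A + 1) := by
    push_cast
    have h1 : (Wp w : ℝ) * ((1 + Ca) * (U:ℝ)) ≤ (2 * (1 + Ca) * Wp w) * H := by
      have : (0:ℝ) ≤ Wp w * (1 + Ca) := by positivity
      nlinarith
    have h2 : 2 * (1 + (Ca:ℝ)) * Wp w ≤ Real.log x := by nlinarith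
    calc (Wp w : ℝ) * ((1 + Ca) * (U:ℝ)) ≤ (2 * (1 + Ca) * Wp w) * H := h1
      _ ≤ Real.log x * (Real.log x) ^ A := mul_le_mul h2 hHup (by positivity) hlogx.le
      _ = _ := by ring
  have hUle : (U:ℝ) ≤ ((Wp w * ((1 + Ca) * U) : ℕ) : ℝ) := by
    have h1 : U ≤ Wp w * ((1 + Ca) * U) := by
      calc U ≤ (1 + Ca) * U := Nat.le_mul_of_pos_left _ (by omega)
        _ ≤ _ := Nat.le_mul_of_pos_left _ hWnat
    exact_mod_cast h1
  have hlenlow : ∀ j, j < J → K1 * Real.log (Nb lam x j : ℝ) ≤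
      ((Wp w * ((1 + Ca) * U) : ℕ) : ℝ) := by
    intro j hj
    obtain ⟨_, h2, h3, _, _⟩ := hNj j hj
    calc K1 * Real.log (Nb lam x j : ℝ) ≤ |K1| * Real.log x :=
          (mul_le_mul_of_nonneg_right (le_abs_self K1) h2.le).trans
            (mul_le_mul_of_nonneg_left h3 (abs_nonneg _))
      _ ≤ max |K1| 1 * Real.log x := mul_le_mul_of_nonneg_right (le_max_left _ _) hlogx.le
      _ ≤ H := hHlow
      _ ≤ U := by rw [hUR]; linarith
      _ ≤ _ := hUle
  -- the residues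
  set Red := f1_rho w 0 with hRed
  have hRedne : Red.Nonempty := f1_rho_nonempty w 0
  have hRedcard : (Red.card : ℝ) = cW (Wp w) * Wp w := f1_rho_card w 0
  have hRedmem : ∀ a0 ∈ Red, a0 < Wp w ∧ a0.Coprime (Wp w) := by
    intro a0 h0
    rw [hRed] at h0
    unfold f1_rho at h0
    rw [Finset.mem_filter, Finset.mem_range, Nat.zero_add] at h0
    exact h0
  -- the exceptional sets
  let Exc : Fin k → ℕ → ℕ → Finset (Fin s → Fin U) := fun l j a0 =>
    univ.filter (fun u => Function.Injective (lin (Wp w) (a l) (fun t => (u t : ℕ))) ∧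
      ∀ u0 : Fin U, ¬ Rep m r η (δt / 2) (fun I => ncnt (Nb lam x j) w a0
        (fun i => Wp w * (u0 : ℕ) + lin (Wp w) (a l) (fun t => (u t : ℕ)) (oe m r hmr I i))))
  have hExc : ∀ l j, j < J → ∀ a0 ∈ Red, ((Exc l j a0).card : ℝ) ≤ ε' * (U:ℝ) ^ s := by
    intro l j hj a0 h0
    obtain ⟨⟨⟨hcl, _⟩, _⟩, h2, h3, h4, _⟩ := hNj j hj
    refine bound_one m r s hmr η (δt / 2) (a l) (ha l) (ha' l) Ca (hCa l) w U (Nb lam x j) a0
      hUr ε' hε'.le ?_ (Exc l j a0) (fun u hu => (Finset.mem_filter.mp hu).2)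
    exact hcl (Wp w * ((1 + Ca) * U)) (hlenlow j hj) (hlenx.trans h4) a0 {0}
      (Finset.singleton_nonempty 0) (by
        intro ρ hρ
        rw [Finset.mem_singleton] at hρ
        subst hρ
        exact ⟨hWnat, by rw [add_zero]; exact (hRedmem a0 h0).2⟩)
  let VB : Fin k → ℕ → Finset (Fin s → Fin U) := fun l j =>
    univ.filter (fun u => (ζ / 4) * (Red.card : ℝ) <
      ((Red.filter (fun a0 => u ∈ Exc l j a0)).card : ℝ))
  have hVB : ∀ l j, j < J → ((VB l j).card : ℝ) ≤ ε1 / (J + 1) * (U:ℝ) ^ s := by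
    intro l j hj
    have h1 := markov Red hRedne (Exc l j) (ε' * (U:ℝ) ^ s) (ζ / 4) (hExc l j hj)
    have h0 : (ζ / 4) * ((VB l j).card : ℝ) ≤ ε' * (U:ℝ) ^ s := by
      refine le_trans (le_of_eq ?_) h1
      congr 2
      apply congrArg
      ext u
      simp only [VB, Finset.mem_filter, Finset.mem_univ, true_and]
      constructor <;> intro h <;> convert h
    have h2 : (ζ / 4) * ((VB l j).card : ℝ) ≤ (ζ / 4) * (ε1 / (J + 1) * (U:ℝ) ^ s) := by
      refine h0.trans (le_of_eq ?_)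
      rw [hε'def]
      ring
    exact le_of_mul_le_mul_left h2 (by positivity)
  let Irr : Fin k → Finset (Fin s → ℕ) := fun l =>
    (Fintype.piFinset (fun _ : Fin s => Finset.range U)).filter (fun y =>
        ∃ i j, i ≠ j ∧ (val (a l) (fun _ => 0) y i = val (a l) (fun _ => 0) y j ∨
          1 + θ < pp w (Nat.dist (val (a l) (fun _ => 0) y i) (val (a l) (fun _ => 0) y j))))
  have hIrr : ∀ l, ((Irr l).card : ℝ) ≤ ε1 * (U:ℝ) ^ s := by
    intro l
    obtain ⟨⟨⟨_, hir⟩, _⟩, h2, h3, h4, _⟩ := hNj 0 hJ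
    refine hir l U (fun _ => 0) (h3.trans (hHlog.trans (by rw [hUR]; linarith)))
      ((hUle.trans hlenx).trans h4) (fun i => ?_)
    push_cast
    positivity
  -- the embedding into the box of side `U`
  let emb : (Fin s → ℕ) → (Fin s → Fin U) := fun u t => ⟨u t % U, Nat.mod_lt _ hU0⟩
  set Q := Fintype.piFinset (fun _ : Fin s => Finset.Icc 1 H) with hQ
  have hQlt : ∀ u ∈ Q, ∀ t, u t < U := by
    intro u hu t
    have h3 := (Fintype.mem_piFinset.mp hu) t
    rw [Finset.mem_Icc] at h3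
    omega
  have hembval : ∀ u ∈ Q, (fun t => ((emb u t : Fin U) : ℕ)) = u := by
    intro u hu
    funext t
    exact Nat.mod_eq_of_lt (hQlt u hu t)
  set Bad := Q.filter (fun u => ¬ GoodPt m (Wp w) a ε x u) with hBad
  have hcover : Bad ⊆ ((univ : Finset (Fin k)).biUnion Irr) ∪
      ((univ : Finset (Fin k)).biUnion (fun l => (Finset.range J).biUnion (fun j =>
        Q.filter (fun u => emb u ∈ VB l j)))) := by
    intro u hu
    rw [hBad, Finset.mem_filter] at hu
    obtain ⟨huQ, hbad⟩ := hu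
    rw [Finset.mem_union]
    by_contra hcon
    rw [not_or] at hcon
    obtain ⟨hc1, hc2⟩ := hcon
    rw [Finset.mem_biUnion] at hc1 hc2
    push Not at hc1 hc2
    apply hbad
    -- regular differences
    have hreg : ∀ l i j, i ≠ j → val (a l) (fun _ => 0) u i ≠ val (a l) (fun _ => 0) u j ∧
        pp w (Nat.dist (val (a l) (fun _ => 0) u i) (val (a l) (fun _ => 0) u j)) ≤ 1 + θ := by
      intro l i j hij
      have h1 := hc1 l (Finset.mem_univ l)
      by_contra h2
      apply h1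
      show u ∈ (Fintype.piFinset (fun _ : Fin s => Finset.range U)).filter _
      rw [Finset.mem_filter, Fintype.mem_piFinset]
      refine ⟨fun t => Finset.mem_range.mpr (hQlt u huQ t), i, j, hij, ?_⟩
      by_contra h3
      rw [not_or] at h3
      exact h2 ⟨h3.1, not_lt.mp h3.2⟩
    have hval0 : ∀ l i, lin (Wp w) (a l) u i = Wp w * val (a l) (fun _ => 0) u i := by
      intro l i
      unfold lin Pool.Agent.HLF.val
      rw [Nat.zero_add]
    have hinj : ∀ l, Function.Injective (lin (Wp w) (a l) u) := by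
      intro l i j hij
      by_contra hne
      rw [hval0, hval0] at hij
      exact (hreg l i j hne).1 (Nat.eq_of_mul_eq_mul_left hWnat hij)
    have hpp : ∀ l i j, i ≠ j →
        pp w (Nat.dist (lin (Wp w) (a l) u i) (lin (Wp w) (a l) u j)) ≤ 1 + θ := by
      intro l i j hij
      rw [hval0, hval0, Nat.dist_mul_left, pp_mul_Wp]
      · exact (hreg l i j hij).2
      · intro h0
        exact (hreg l i j hij).1 (Nat.eq_of_dist_eq_zero h0)
    refine ⟨hinj, ?_⟩
    -- representation of the ratios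
    have hRep : ∀ l, Rep m r η (δt / 2 + ζ * 4 ^ (m + 1))
        (fun S => ratio m x (S.image (lin (Wp w) (a l) u))) := by
      intro l
      have hnotVB : ∀ j, j < J → ((Red.filter (fun a0 => emb u ∈ Exc l j a0)).card : ℝ) ≤
          (ζ / 4) * (Red.card : ℝ) := by
        intro j hj
        have h1 := hc2 l (Finset.mem_univ l)
        rw [Finset.mem_biUnion] at h1
        push Not at h1
        have h2 := h1 j (Finset.mem_range.mpr hj)
        by_contra h3
        push Not at h3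
        apply h2
        rw [Finset.mem_filter]
        exact ⟨huQ, Finset.mem_filter.mpr ⟨Finset.mem_univ _, h3⟩⟩
      -- the good blocks and classes
      set G : Finset (ℕ × ℕ) := ((Finset.range J) ×ˢ Red).filter
        (fun q => emb u ∉ Exc l q.1 q.2) with hG
      have hGmem : ∀ q ∈ G, q.1 < J ∧ q.2 ∈ Red ∧ emb u ∉ Exc l q.1 q.2 := by
        intro q hq
        rw [hG, Finset.mem_filter, Finset.mem_product, Finset.mem_range] at hq
        exact ⟨hq.1.1, hq.1.2, hq.2⟩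
      have hex : ∀ q : ℕ × ℕ, ∃ u0 : ℕ, u0 < U ∧ (q ∈ G → Rep m r η (δt / 2)
          (fun I => ncnt (Nb lam x q.1) w q.2
            (fun i => Wp w * u0 + lin (Wp w) (a l) u (oe m r hmr I i)))) := by
        intro q
        by_cases hq : q ∈ G
        · have h1 := (hGmem q hq).2.2
          have h2 : ¬ (Function.Injective (lin (Wp w) (a l) (fun t => ((emb u t : Fin U) : ℕ))) ∧
              ∀ u0 : Fin U, ¬ Rep m r η (δt / 2) (fun I => ncnt (Nb lam x q.1) w q.2
              (fun i => Wp w * (u0 : ℕ) +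
                lin (Wp w) (a l) (fun t => ((emb u t : Fin U) : ℕ)) (oe m r hmr I i)))) :=
            fun h => h1 (Finset.mem_filter.mpr ⟨Finset.mem_univ _, h⟩)
          rw [hembval u huQ] at h2
          rw [not_and] at h2
          have h3 := h2 (hinj l)
          push Not at h3
          obtain ⟨u0, hu0⟩ := h3
          exact ⟨u0, u0.2, fun _ => hu0⟩
        · exact ⟨0, hU0, fun h => absurd h hq⟩
      choose sh hsh1 hsh2 using hex
      refine rep_ratio m r s hmr η (δt / 2) ζ θ (by positivity) hζ.le (by linarith) hθ.le (a l) w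
        hmw x hx0 hlog1 u (hinj l) (hpp l) (Nb lam x) ((Real.log x) ^ (A + 1)) G sh
        (fun q hq => (hRedmem q.2 (hGmem q hq).2.1).1) ?_ ?_ ?_ (fun q hq => hsh2 q hq) ?_
      · intro q hq i
        refine le_trans ?_ hlenx
        have h1 := mem_VS_zero w U Ca (a l) (hCa l) (sh q) (hsh1 q) u (hQlt u huQ) i
        unfold VS at h1
        rw [Finset.mem_filter, Finset.mem_range] at h1
        exact_mod_cast Nat.lt_succ_iff.mp h1.1
      · intro q hq
        obtain ⟨⟨_, h1⟩, h2, h3, _, h5⟩ := hNj q.1 (hGmem q hq).1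
        exact ⟨h2, h3, h5, by exact_mod_cast h1⟩
      · intro q hq q' hq' hlt
        exact hNjj q.1 q'.1 hlt (hGmem q' hq').1
      · -- the weights
        set c3 : ℝ := (1 + θ) ^ ((m + 1) * (m + 1) * (m + 1)) with hc3
        have hc3pos : 0 < c3 := by positivity
        have hsplit : ∑ q ∈ G, ((Nb lam x q.1 : ℝ) / Wp w - 1) / (cW (Wp w) * x * c3) =
            ∑ j ∈ Finset.range J, ((Nb lam x j : ℝ) / Wp w - 1) / (cW (Wp w) * x * c3) *
              ((Red.filter (fun a0 => emb u ∉ Exc l j a0)).card : ℝ) := by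
          rw [hG, Finset.sum_filter, Finset.sum_product]
          refine Finset.sum_congr rfl fun j _ => ?_
          simp only []
          rw [← Finset.sum_filter, Finset.sum_const, nsmul_eq_mul, mul_comm]
        rw [hsplit]
        have hcardgood : ∀ j, j < J → (1 - ζ / 4) * (cW (Wp w) * Wp w) ≤
            ((Red.filter (fun a0 => emb u ∉ Exc l j a0)).card : ℝ) := by
          intro j hj
          have h1 := Finset.card_filter_add_card_filter_not (s := Red)
            (fun a0 => emb u ∈ Exc l j a0)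
          have h2 : ((Red.filter (fun a0 => emb u ∈ Exc l j a0)).card : ℝ) +
              ((Red.filter (fun a0 => emb u ∉ Exc l j a0)).card : ℝ) = Red.card := by
            exact_mod_cast h1
          have h3 := hnotVB j hj
          rw [hRedcard] at h2 h3
          linarith
        have hterm : ∀ j ∈ Finset.range J,
            ((Nb lam x j : ℝ) - Wp w) * ((1 - ζ / 4) / (x * c3)) ≤
            ((Nb lam x j : ℝ) / Wp w - 1) / (cW (Wp w) * x * c3) *
              ((Red.filter (fun a0 => emb u ∉ Exc l j a0)).card : ℝ) := by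
          intro j hj
          rw [Finset.mem_range] at hj
          obtain ⟨⟨_, h1⟩, _⟩ := hNj j hj
          have h1' : (Wp w : ℝ) < Nb lam x j := by exact_mod_cast h1
          have h2 : (0:ℝ) ≤ ((Nb lam x j : ℝ) / Wp w - 1) / (cW (Wp w) * x * c3) := by
            have h3 : (1:ℝ) ≤ (Nb lam x j : ℝ) / Wp w := by rw [le_div_iff₀ hWpos]; linarith
            exact div_nonneg (by linarith) (by positivity)
          refine le_trans (le_of_eq ?_) (mul_le_mul_of_nonneg_left (hcardgood j hj) h2)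
          field_simp
        refine le_trans ?_ (Finset.sum_le_sum hterm)
        rw [← Finset.sum_mul]
        have h5 : (1 - ζ / 4) * x * ((1 - ζ / 4) / (x * c3)) ≤
            (∑ j ∈ Finset.range J, ((Nb lam x j : ℝ) - Wp w)) * ((1 - ζ / 4) / (x * c3)) :=
          mul_le_mul_of_nonneg_right hsum (by
            have : 0 ≤ 1 - ζ / 4 := by linarith
            positivity)
        refine le_trans ?_ h5
        have h6 : (1 - ζ / 4) * x * ((1 - ζ / 4) / (x * c3)) = (1 - ζ / 4) ^ 2 / c3 := by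
          field_simp
        rw [h6, le_div_iff₀ hc3pos]
        have h7 : (1 - ζ) * c3 ≤ (1 - ζ) * (1 + ζ / 4) :=
          mul_le_mul_of_nonneg_left hθ1 (by linarith)
        nlinarith
    have hmain := rep_systems m r k η (δt / 2 + ζ * 4 ^ (m + 1)) hη.le hη1 (by positivity)
      (fun l S => ratio m x (S.image (lin (Wp w) (a l) u)))
      (by
        intro l S
        unfold ratio
        have h1 : 0 ≤ singularSeries (translate0 (S.image (lin (Wp w) (a l) u))) :=
          singularSeries_nonneg _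
        positivity) hRep
    refine le_trans ?_ hmain
    have h8 : (2:ℝ) ^ r * (k * (4 ^ (m + 1)) ^ k * (δt / 2 + ζ * 4 ^ (m + 1))) ≤ ε / 2 := by
      have h9 : δt / 2 + ζ * 4 ^ (m + 1) ≤ δt := by linarith
      calc (2:ℝ) ^ r * (k * (4 ^ (m + 1)) ^ k * (δt / 2 + ζ * 4 ^ (m + 1))) =
            F * (δt / 2 + ζ * 4 ^ (m + 1)) := by rw [hFdef]; ring
        _ ≤ F * δt := mul_le_mul_of_nonneg_left h9 hF0
        _ ≤ ε / 2 := hFδ
    have h10 : phi (4 ^ k) (m + 1) r = ∏ j ∈ Finset.range (m + 1),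
        max ((r:ℝ) - 4 ^ k * (j:ℝ)) 0 := rfl
    rw [← h10]
    linarith
  -- counting
  have hVBQ : ∀ l j, ((Q.filter (fun u => emb u ∈ VB l j)).card : ℝ) ≤ ((VB l j).card : ℝ) := by
    intro l j
    refine Nat.cast_le.mpr (Finset.card_le_card_of_injOn emb ?_ ?_)
    · intro u hu
      exact (Finset.mem_filter.mp (Finset.mem_coe.mp hu)).2
    · intro u hu v hv huv
      have hu' := (Finset.mem_filter.mp (Finset.mem_coe.mp hu)).1
      have hv' := (Finset.mem_filter.mp (Finset.mem_coe.mp hv)).1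
      rw [← hembval u hu', ← hembval v hv', huv]
  have hcard : (Bad.card : ℝ) ≤ ∑ l : Fin k, ((Irr l).card : ℝ) +
      ∑ l : Fin k, ∑ j ∈ Finset.range J, ((Q.filter (fun u => emb u ∈ VB l j)).card : ℝ) := by
    have h1 := (Finset.card_le_card hcover).trans (Finset.card_union_le _ _)
    have h2 : ((univ : Finset (Fin k)).biUnion (fun l => (Finset.range J).biUnion (fun j =>
        Q.filter (fun u => emb u ∈ VB l j)))).card ≤
        ∑ l : Fin k, ∑ j ∈ Finset.range J, (Q.filter (fun u => emb u ∈ VB l j)).card :=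
      Finset.card_biUnion_le.trans (Finset.sum_le_sum fun l _ => Finset.card_biUnion_le)
    have h3 := h1.trans (Nat.add_le_add Finset.card_biUnion_le h2)
    exact_mod_cast h3
  refine hcard.trans ?_
  have hUs : (U:ℝ) ^ s ≤ 2 ^ s * (H:ℝ) ^ s := by
    rw [← mul_pow]
    exact pow_le_pow_left₀ (by positivity) hU2 _
  have hHs : (0:ℝ) ≤ (H:ℝ) ^ s := by positivity
  have hkk : (k:ℝ) * ε1 * 2 ^ s ≤ ε / 2 := by
    have h1 : (k:ℝ) * ε1 * 2 ^ s = ε / 2 * (k / (k + 1)) := by
      rw [hε1def, pow_succ]; field_simp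
    rw [h1]
    have h2 : (k:ℝ) / (k + 1) ≤ 1 := by rw [div_le_one (by positivity)]; linarith
    nlinarith
  have hA1 : ∑ l : Fin k, ((Irr l).card : ℝ) ≤ ε / 2 * (H:ℝ) ^ s := by
    calc ∑ l : Fin k, ((Irr l).card : ℝ) ≤ ∑ _l : Fin k, ε1 * (U:ℝ) ^ s :=
          Finset.sum_le_sum fun l _ => hIrr l
      _ = k * ε1 * (U:ℝ) ^ s := by
          rw [Finset.sum_const, Finset.card_univ, Fintype.card_fin, nsmul_eq_mul]; ring
      _ ≤ k * ε1 * (2 ^ s * (H:ℝ) ^ s) := mul_le_mul_of_nonneg_left hUs (by positivity)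
      _ = (k * ε1 * 2 ^ s) * (H:ℝ) ^ s := by ring
      _ ≤ _ := mul_le_mul_of_nonneg_right hkk hHs
  have hA2 : ∑ l : Fin k, ∑ j ∈ Finset.range J,
      ((Q.filter (fun u => emb u ∈ VB l j)).card : ℝ) ≤ ε / 2 * (H:ℝ) ^ s := by
    calc ∑ l : Fin k, ∑ j ∈ Finset.range J,
        ((Q.filter (fun u => emb u ∈ VB l j)).card : ℝ) ≤
        ∑ _l : Fin k, ∑ _j ∈ Finset.range J, ε1 / (J + 1) * (U:ℝ) ^ s :=
          Finset.sum_le_sum fun l _ => Finset.sum_le_sum fun j hj =>
            (hVBQ l j).trans (hVB l j (Finset.mem_range.mp hj))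
      _ = k * ε1 * (J / (J + 1)) * (U:ℝ) ^ s := by
          rw [Finset.sum_const, Finset.sum_const, Finset.card_univ, Fintype.card_fin,
            Finset.card_range, nsmul_eq_mul, nsmul_eq_mul]
          ring
      _ ≤ k * ε1 * 1 * (U:ℝ) ^ s := by
          have h2 : (J:ℝ) / (J + 1) ≤ 1 := by rw [div_le_one (by positivity)]; linarith
          apply mul_le_mul_of_nonneg_right _ (by positivity)
          exact mul_le_mul_of_nonneg_left h2 (by positivity)
      _ ≤ k * ε1 * 1 * (2 ^ s * (H:ℝ) ^ s) := mul_le_mul_of_nonneg_left hUs (by positivity)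
      _ = (k * ε1 * 2 ^ s) * (H:ℝ) ^ s := by ring
      _ ≤ _ := mul_le_mul_of_nonneg_right hkk hHs
  linarith

end Pool.Agent.HLG
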